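import Mathlib
import Pool.Agent.Helper29.E2.Opp

/-!
# E-T (MP_12a1af_nt), phase 2: the grids of the top zone

Three grids: units (`un`), mid blocks (`mb`), small cells (`sb`).  For large epochs
(`CC c ^ 4 ≤ ep c s`) they are nested.
-/

set_option autoImplicit false

namespace Pool.Agent.Helper86.E2

open Pool.Agent.Helper29.ETK (CC lg gl sl kk Gq Tq CC_pos CC_ge one_lt_CC pow_pos' pow_le pow_dvd'
  lg_le lt_lg lg_mono lg_eq le_lg lg_lt Gq_pos kk_le le_two_kk)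
open Pool.Agent.Helper29.E2

variable {c : ℕ}

/-- start of the cell of length `f (ep c s)` which contains `s` -/
def gb (f : ℕ → ℕ) (c s : ℕ) : ℕ := f (ep c s) * (s / f (ep c s))

/-- length functions of a grid, good for the epochs `≥ e0` -/
structure GridFn (c e0 : ℕ) (f : ℕ → ℕ) : Prop where
  pos : ∀ e, 0 < f e
  dvd : ∀ e, e0 ≤ e → f e ∣ CC c ^ e
  mono : ∀ e e', e0 ≤ e → e ≤ e' → f e ∣ f e'

section grid

variable {f f' : ℕ → ℕ} {e0 : ℕ}

lemma gb_le (f : ℕ → ℕ) (c s : ℕ) : gb f c s ≤ s := Nat.mul_div_le s _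

lemma GridFn.lt_gb (h : GridFn c e0 f) (s : ℕ) : s < gb f c s + f (ep c s) := by
  unfold gb
  have := Nat.lt_mul_div_succ s (h.pos (ep c s))
  rw [mul_add, mul_one] at this
  exact this

lemma dvd_gb (f : ℕ → ℕ) (c s : ℕ) : f (ep c s) ∣ gb f c s := Dvd.intro _ rfl

/-- multiples of the length below `s` are `≤ gb f c s` -/
lemma GridFn.le_gb (h : GridFn c e0 f) {s x : ℕ} (hx : f (ep c s) ∣ x) (hxs : x ≤ s) :
    x ≤ gb f c s := by
  obtain ⟨k, rfl⟩ := hx
  unfold gb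
  apply Nat.mul_le_mul_left
  rw [Nat.le_div_iff_mul_le (h.pos _), mul_comm]
  exact hxs

lemma ne_zero_of_ep {s : ℕ} (hs : 1 ≤ ep c s) : s ≠ 0 := by
  rintro rfl
  simp [ep, lg] at hs

lemma GridFn.lg_gb (hc : 10 ≤ c) (h : GridFn c e0 f) {s : ℕ} (he : e0 ≤ ep c s) (h1 : 1 ≤ ep c s) :
    lg c (gb f c s) = lg c s := by
  apply lg_eq hc
  · exact h.le_gb ((h.dvd _ he).trans (pow_dvd' c (ep_le_lg c s))) (lg_le c (ne_zero_of_ep h1))
  · exact lt_of_le_of_lt (gb_le f c s) (lt_lg hc s)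

lemma GridFn.ep_gb (hc : 10 ≤ c) (h : GridFn c e0 f) {s : ℕ} (he : e0 ≤ ep c s)
    (h1 : 1 ≤ ep c s) : ep c (gb f c s) = ep c s := by
  unfold ep; rw [h.lg_gb hc he h1]

/-- `x` is a grid point -/
lemma gb_eq_iff {s : ℕ} : gb f c s = s ↔ f (ep c s) ∣ s := by
  constructor
  · intro h
    rw [← h]
    conv_lhs => rw [h]
    exact dvd_gb f c s
  · intro h
    exact Nat.mul_div_cancel' h

lemma GridFn.gb_gb (hc : 10 ≤ c) (h : GridFn c e0 f) {s : ℕ} (he : e0 ≤ ep c s)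
    (h1 : 1 ≤ ep c s) : gb f c (gb f c s) = gb f c s := by
  rw [gb_eq_iff, h.ep_gb hc he h1]
  exact dvd_gb f c s

/-- two multiples of `d` -/
lemma add_le_of_dvd {d x y : ℕ} (hx : d ∣ x) (hy : d ∣ y) (h : x < y) : x + d ≤ y := by
  obtain ⟨k, rfl⟩ := hx
  obtain ⟨m, rfl⟩ := hy
  have : k < m := lt_of_mul_lt_mul_left h (Nat.zero_le _)
  calc d * k + d = d * (k + 1) := by ring
    _ ≤ _ := Nat.mul_le_mul_left _ this

/-- the cell of a grid point stays in the epoch -/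
lemma GridFn.ep_eq (hc : 10 ≤ c) (h : GridFn c e0 f) {b s : ℕ} (he : e0 ≤ ep c b)
    (h1 : 1 ≤ ep c b) (hb : gb f c b = b) (hbs : b ≤ s) (hs : s < b + f (ep c b)) :
    lg c s = lg c b := by
  apply lg_eq hc
  · exact (lg_le c (ne_zero_of_ep h1)).trans hbs
  · have h2 : b + f (ep c b) ≤ CC c ^ (lg c b + 1) := by
      refine add_le_of_dvd (gb_eq_iff.mp hb) ?_ (lt_lg hc b)
      exact (h.dvd _ he).trans (pow_dvd' c ((ep_le_lg c b).trans (Nat.le_succ _)))
    omega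

lemma GridFn.gb_of_mem (hc : 10 ≤ c) (h : GridFn c e0 f) {b s : ℕ} (he : e0 ≤ ep c b)
    (h1 : 1 ≤ ep c b) (hb : gb f c b = b) (hbs : b ≤ s) (hs : s < b + f (ep c b)) :
    gb f c s = b ∧ ep c s = ep c b := by
  have h2 : ep c s = ep c b := by unfold ep; rw [h.ep_eq hc he h1 hb hbs hs]
  refine ⟨?_, h2⟩
  have h3 : b ≤ gb f c s := h.le_gb (by rw [h2]; exact gb_eq_iff.mp hb) hbs
  by_contra hne
  have h4 : b < gb f c s := by omega
  have h5 := add_le_of_dvd (d := f (ep c b)) (gb_eq_iff.mp hb) (by rw [← h2]; exact dvd_gb f c s) h4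
  have h6 := gb_le f c s
  omega

/-- grid points above a position are above its cell -/
lemma GridFn.next_le (h : GridFn c e0 f) {s x : ℕ} (he : e0 ≤ ep c s)
    (hx : gb f c x = x) (hsx : s < x) : gb f c s + f (ep c s) ≤ x := by
  refine add_le_of_dvd (dvd_gb f c s) ?_ (lt_of_le_of_lt (gb_le f c s) hsx)
  exact (h.mono _ _ he (ep_mono hsx.le)).trans (gb_eq_iff.mp hx)

/-- grid points below a position are below its cell -/
lemma GridFn.le_of_le (h : GridFn c e0 f) (hc : 10 ≤ c) {s x : ℕ} (he : e0 ≤ ep c x)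
    (h1 : 1 ≤ ep c x) (hx : gb f c x = x) (hxs : x ≤ s) : x ≤ gb f c s := by
  by_contra hlt
  push Not at hlt
  have h2 : ep c s = ep c x := by
    have h3 := ep_mono (c := c) hxs
    have h4 := h.ep_gb hc (s := s) (he.trans h3) (h1.trans h3)
    have h5 := ep_mono (c := c) hlt.le
    omega
  have h3 : x ≤ gb f c s := h.le_gb (by rw [h2]; exact gb_eq_iff.mp hx) hxs
  omega

/-- nested grids -/
lemma gb_gb_of_dvd (hc : 10 ≤ c) (h : GridFn c e0 f) (h' : GridFn c e0 f') {s : ℕ}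
    (he : e0 ≤ ep c s) (h1 : 1 ≤ ep c s) (hd : f (ep c s) ∣ f' (ep c s)) :
    gb f' c (gb f c s) = gb f' c s := by
  have h2 := h'.gb_gb hc he h1
  have h3 := h'.ep_gb hc he h1
  have h4 : gb f' c s ≤ gb f c s := h.le_gb (hd.trans (dvd_gb f' c s)) (gb_le f' c s)
  refine (h'.gb_of_mem hc (b := gb f' c s) (by omega) (by omega) h2 h4 ?_).1
  rw [h3]
  exact lt_of_le_of_lt (gb_le f c s) (h'.lt_gb s)

lemma gb_coarse_fine (hc : 10 ≤ c) (h' : GridFn c e0 f') {s : ℕ}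
    (he : e0 ≤ ep c s) (h1 : 1 ≤ ep c s) (hd : f (ep c s) ∣ f' (ep c s)) :
    gb f c (gb f' c s) = gb f' c s := by
  rw [gb_eq_iff, h'.ep_gb hc he h1]
  exact hd.trans (dvd_gb f' c s)

lemma gb_fine_of_coarse (hd : ∀ e, e0 ≤ e → f e ∣ f' e) {x : ℕ}
    (he : e0 ≤ ep c x) (hx : gb f' c x = x) : gb f c x = x := by
  rw [gb_eq_iff] at hx ⊢
  exact (hd _ he).trans hx

end grid

/-! ### the three grids -/

lemma un_eq_gb (c s : ℕ) : un c s = gb (fun e => CC c ^ e) c s := rfl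

lemma mb_eq_gb (c s : ℕ) : mb c s = gb (hh c) c s := rfl

lemma sb_eq_gb (c s : ℕ) : sb c s = gb (ll c) c s := rfl

/-- the first good epoch -/
def E0 (c : ℕ) : ℕ := CC c ^ 4

lemma kk_mono {e e' : ℕ} (h : e ≤ e') : kk e ≤ kk e' := by
  unfold kk
  exact Nat.clog_mono_right _ (by omega)

lemma kk_succ_le (e : ℕ) : kk (e + 1) ≤ kk e + 1 := by
  unfold kk
  refine Nat.clog_le_of_le_pow ?_
  rw [pow_succ]
  have := Nat.le_pow_clog (b := 2) (by norm_num) (8 * (3 * e + 10))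
  omega

lemma kk_add_le (e : ℕ) : ∀ k, kk (e + k) ≤ kk e + k
  | 0 => le_rfl
  | k + 1 => by
    have h1 := kk_add_le e k
    have h2 := kk_succ_le (e + k)
    rw [← add_assoc]
    omega

/-- `kk` is large in the good epochs -/
lemma four_le_kk {e : ℕ} (he : E0 c ≤ e) : 4 * c + 4 ≤ kk e := by
  unfold kk
  have h1 : 2 ^ (4 * c + 3) < 8 * (3 * e + 10) := by
    have h2 : E0 c = 2 ^ (4 * c) := by
      unfold E0 CC
      rw [← pow_mul, mul_comm]
    rw [h2] at he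
    rw [pow_add]
    norm_num
    omega
  exact (Nat.lt_clog_iff_pow_lt (by norm_num)).mpr h1

lemma E0_ge (hc : 10 ≤ c) : 1024 ≤ E0 c := by
  unfold E0
  calc 1024 ≤ CC c := CC_ge hc
    _ = CC c ^ 1 := (pow_one _).symm
    _ ≤ _ := pow_le c (by norm_num)

lemma kk_le' {e : ℕ} (hc : 10 ≤ c) (he : 9 ≤ e) : 19 + kk e ≤ c * (e - 4) := by
  have h1 := kk_add_le (e - 5) 5
  have h2 := kk_le (c := c) (E := e - 5) hc (by omega)
  have e1 : e - 5 + 5 = e := by omega
  rw [e1] at h1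
  have h3 : c * (e - 4) = c * (e - 5 - 1) + c * 2 := by
    rw [← mul_add]
    congr 1
    omega
  omega

lemma unit_grid (c e0 : ℕ) : GridFn c e0 (fun e => CC c ^ e) where
  pos := fun e => pow_pos' c e
  dvd := fun _ _ => dvd_refl _
  mono := fun _ _ _ h => pow_dvd' c h

lemma kk_exp_mono {e e' : ℕ} (hc : 10 ≤ c) (h : e ≤ e') : c * e + kk e' ≤ c * e' + kk e := by
  obtain ⟨k, rfl⟩ := Nat.exists_eq_add_of_le h
  have h1 := kk_add_le e k
  have h2 : k ≤ c * k := Nat.le_mul_of_pos_left _ (by omega)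
  rw [mul_add]
  omega

lemma mid_grid (hc : 10 ≤ c) : GridFn c (E0 c) (hh c) where
  pos := fun e => by unfold hh; positivity
  dvd := fun e he => by
    have h1 := four_le_kk he
    unfold hh CC
    rw [← pow_mul]
    refine pow_dvd_pow 2 ?_
    rw [mul_add]
    omega
  mono := fun e e' he h => by
    have h1 := kk_exp_mono hc h
    unfold hh
    refine pow_dvd_pow 2 ?_
    rw [mul_add, mul_add]
    omega

lemma small_grid (hc : 10 ≤ c) : GridFn c (E0 c) (ll c) where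
  pos := fun e => by unfold ll; positivity
  dvd := fun e he => by
    unfold ll CC
    rw [← pow_mul]
    refine pow_dvd_pow 2 ?_
    have : c * (e - 3) ≤ c * e := Nat.mul_le_mul_left _ (Nat.sub_le _ _)
    omega
  mono := fun e e' he h => by
    have h0 := E0_ge hc
    have h1 := kk_exp_mono hc (show e - 3 ≤ e' - 3 by omega)
    have h2 := kk_exp_mono hc h
    unfold ll
    refine pow_dvd_pow 2 ?_
    have e1 : c * e = c * (e - 3) + c * 3 := by rw [← mul_add]; congr 1; omega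
    have e2 : c * e' = c * (e' - 3) + c * 3 := by rw [← mul_add]; congr 1; omega
    omega

/-- sizes of the mid blocks -/
lemma hh_eq_Gq (hc : 10 ≤ c) {e : ℕ} (he : 4 ≤ e) : hh c e = CC c ^ 5 * Gq c e := by
  have h1 := kk_le (c := c) hc he
  unfold hh Gq CC
  rw [← pow_mul, ← pow_add]
  congr 1
  have e1 : c * (e + 4) = c * (e - 1) + c * 5 := by rw [← mul_add]; congr 1; omega
  omega

/-- sizes of the small cells -/
lemma Gq_eq_ll (hc : 10 ≤ c) {e : ℕ} (he : 9 ≤ e) : Gq c e = 2 ^ 9 * CC c ^ 3 * ll c e := by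
  have h1 := kk_le' (c := c) hc he
  unfold ll Gq CC
  rw [← pow_mul, ← pow_add, ← pow_add]
  congr 1
  have e1 : c * (e - 1) = c * (e - 4) + c * 3 := by rw [← mul_add]; congr 1; omega
  have e2 : c * (e - 3) = c * (e - 4) + c * 1 := by rw [← mul_add]; congr 1; omega
  omega

lemma hh_eq_ll (hc : 10 ≤ c) {e : ℕ} (he : 9 ≤ e) : hh c e = 2 ^ 9 * CC c ^ 8 * ll c e := by
  rw [hh_eq_Gq hc (by omega), Gq_eq_ll hc he]
  ring

lemma ll_dvd_hh (hc : 10 ≤ c) {e : ℕ} (he : E0 c ≤ e) : ll c e ∣ hh c e := by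
  have h0 := E0_ge hc
  rw [hh_eq_ll hc (by omega)]
  exact Dvd.intro_left _ rfl

/-- the mid blocks are short -/
lemma hh_le_Wd (hc : 10 ≤ c) {e : ℕ} (he : E0 c ≤ e) : 2 ^ 14 * hh c e ≤ CC c ^ e := by
  have h1 := four_le_kk he
  have h0 := E0_ge hc
  unfold hh CC
  rw [← pow_add, ← pow_mul]
  refine Nat.pow_le_pow_right (by norm_num) ?_
  have h2 : e ≤ c * e := Nat.le_mul_of_pos_left _ (by omega)
  rw [mul_add]
  omega

end Pool.Agent.Helper86.E2
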