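import Mathlib
import Pool.Agent.Helper86.E2.Grid
import Pool.Agent.Helper86.E2.DescDefs

/-!
# E-T (MP_12a1af_nt), phase 2: the top zone at one time

`t` is large: `E0 c ≤ epo c t`.
-/

set_option autoImplicit false

namespace Pool.Agent.Helper86.E2

open Pool.Agent.Helper29.ETK (CC lg gl sl kk Gq Tq CC_pos CC_ge one_lt_CC pow_pos' pow_le pow_dvd'
  lg_le lt_lg lg_mono lg_eq le_lg lg_lt Gq_pos kk_le le_two_kk)
open Pool.Agent.Helper29.E2

variable {c t : ℕ}

/-! ### sizes -/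

lemma Gq_mono' (hc : 10 ≤ c) {E E' : ℕ} (h : E ≤ E') : Gq c E ≤ Gq c E' := by
  unfold Gq
  refine Nat.pow_le_pow_right (by norm_num) ?_
  rcases Nat.eq_zero_or_pos E with rfl | hE
  · simp
  · have h1 := kk_exp_mono hc h
    have e1 : c * E = c * (E - 1) + c * 1 := by rw [← mul_add]; congr 1; omega
    have e2 : c * E' = c * (E' - 1) + c * 1 := by rw [← mul_add]; congr 1; omega
    omega

lemma Gq_le_pow (c E : ℕ) : Gq c E ≤ CC c ^ E := by
  unfold Gq CC
  rw [← pow_mul]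
  refine Nat.pow_le_pow_right (by norm_num) ?_
  have : c * (E - 1) ≤ c * E := Nat.mul_le_mul_left _ (Nat.sub_le _ _)
  omega

lemma Wd_mono {s s' : ℕ} (h : s ≤ s') : Wd c s ≤ Wd c s' := pow_le c (ep_mono h)

lemma tU_mono (hc : 10 ≤ c) (j : ℕ) {b b' : ℕ} (h : b ≤ b') : tU c j b ≤ tU c j b' := by
  unfold tU
  have h1 := Wd_mono (c := c) h
  have h2 := Gq_mono' hc (epo_mono (c := c) (show b + 3 * Wd c b ≤ b' + 3 * Wd c b' by omega))
  have h3 := Nat.mul_le_mul_left (12 + j) h2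
  omega

lemma tU_le (c : ℕ) {j j' : ℕ} (h : j ≤ j') (b : ℕ) : tU c j b ≤ tU c j' b := by
  unfold tU
  have := Nat.mul_le_mul_right (Gq c (epo c (b + 3 * Wd c b))) (show 12 + j ≤ 12 + j' by omega)
  omega

lemma tB_le (c : ℕ) {j j' : ℕ} (h : j ≤ j') (f : ℕ) : tB c j f ≤ tB c j' f := by
  unfold tB
  have := Nat.mul_le_mul_right (Gq c (epo c (f + 3 * Hd c f))) (show 4 + j ≤ 4 + j' by omega)
  omega

lemma le_tU (c j b : ℕ) : b + 3 * Wd c b ≤ tU c j b := Nat.le_add_right _ _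

lemma le_tB (c j f : ℕ) : f + 3 * Hd c f ≤ tB c j f := Nat.le_add_right _ _

/-! ### the end of the merged part -/

lemma wb_set_nonempty (hc : 10 ≤ c) (t : ℕ) : {b | un c b = b ∧ t < tU c 3 b}.Nonempty := by
  refine ⟨CC c ^ (lg c t + 1), ?_, ?_⟩
  · rw [un_eq_iff]
    refine pow_dvd' c ?_
    have : lg c (CC c ^ (lg c t + 1)) = lg c t + 1 :=
      lg_eq hc le_rfl (Nat.pow_lt_pow_right (one_lt_CC hc) (Nat.lt_succ_self _))
    unfold ep
    omega
  · exact lt_of_lt_of_le (lt_lg hc t) ((Nat.le_add_right _ _).trans (le_tU c 3 _))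

lemma wb_spec (hc : 10 ≤ c) (t : ℕ) : un c (wb c t) = wb c t ∧ t < tU c 3 (wb c t) :=
  Nat.sInf_mem (wb_set_nonempty hc t)

lemma of_lt_wb (hc : 10 ≤ c) {s : ℕ} (h : s < wb c t) : tU c 3 (un c s) ≤ t := by
  have h1 : un c s < wb c t := lt_of_le_of_lt (un_le c s) h
  have h2 := Nat.notMem_of_lt_sInf h1
  simp only [Set.mem_ofPred_eq, not_and, not_lt] at h2
  exact h2 (un_un hc s)

lemma wb_le_of (h : un c t = t) {T : ℕ} (hT : T < tU c 3 t) : wb c T ≤ t :=
  Nat.sInf_le ⟨h, hT⟩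

lemma wb_le_un (hc : 10 ≤ c) {s : ℕ} (h : wb c t ≤ s) : wb c t ≤ un c s := by
  by_contra hlt
  push Not at hlt
  have h1 := (wb_spec hc t).1
  have h2 : ep c s = ep c (wb c t) := by
    have h3 := ep_mono (c := c) h
    have h4 := ep_un hc s
    have h5 := ep_mono (c := c) hlt.le
    omega
  have h3 : wb c t ≤ un c s := by
    refine le_un ?_ h
    have : Wd c s = Wd c (wb c t) := by unfold Wd; rw [h2]
    rw [this]
    exact un_eq_iff.mp h1
  omega

lemma lt_tU_of_wb_le (hc : 10 ≤ c) {s : ℕ} (h : wb c t ≤ s) : t < tU c 3 (un c s) :=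
  lt_of_lt_of_le (wb_spec hc t).2 (tU_mono hc 3 (wb_le_un hc h))

lemma wb_mono (hc : 10 ≤ c) {t' : ℕ} (h : t ≤ t') : wb c t ≤ wb c t' :=
  Nat.sInf_le ⟨(wb_spec hc t').1, lt_of_le_of_lt h (wb_spec hc t').2⟩

/-! ### epochs near `t` -/

/-- positions not too small compared to `t` have a good epoch -/
lemma ep_ge_of (hc : 10 ≤ c) {s : ℕ} (h : t < CC c * s) : epo c t ≤ ep c s := by
  have h1 : t < CC c ^ (lg c s + 2) := by
    have h2 := lt_lg hc s
    calc t < CC c * s := h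
      _ ≤ CC c * CC c ^ (lg c s + 1) := Nat.mul_le_mul_left _ h2.le
      _ = _ := by ring
  have h2 := lg_lt (by omega) h1
  unfold epo ep
  omega

lemma ep_le_of {s : ℕ} (h : s ≤ t) : ep c s ≤ epo c t + 1 := by
  have := lg_mono (c := c) h
  unfold epo ep
  omega

lemma Gq_epo_le {x : ℕ} (hx : x ≠ 0) : Gq c (epo c x) ≤ x := by
  refine (Gq_le_pow c _).trans ((pow_le c ?_).trans (lg_le c hx))
  unfold epo
  omega

lemma Wd_le_self {x : ℕ} (hx : x ≠ 0) : Wd c x ≤ x :=
  (pow_le c (ep_le_lg c x)).trans (lg_le c hx)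

lemma epo_le_ep_wb (hc : 10 ≤ c) (ht : 1 ≤ epo c t) : epo c t ≤ ep c (wb c t) := by
  have h1 := (wb_spec hc t).2
  have hC := CC_ge hc
  have ht0 : CC c ^ 1 ≤ t := by
    have h2 : 1 ≤ lg c t := by unfold epo at ht; omega
    have h3 : t ≠ 0 := by rintro rfl; simp [lg] at h2
    exact (pow_le c h2).trans (lg_le c h3)
  refine ep_ge_of hc ?_
  rcases Nat.eq_zero_or_pos (wb c t) with h0 | h0
  · rw [h0] at h1
    unfold tU at h1
    have e1 : Wd c 0 = 1 := by simp [Wd, ep, lg]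
    rw [e1] at h1
    have h2 : Gq c (epo c (0 + 3 * 1)) ≤ 3 := Gq_epo_le (by norm_num)
    rw [pow_one] at ht0
    omega
  · have h2 := Wd_le_self (c := c) (x := wb c t) (by omega)
    have h3 : Gq c (epo c (wb c t + 3 * Wd c (wb c t))) ≤ wb c t + 3 * Wd c (wb c t) :=
      Gq_epo_le (by omega)
    unfold tU at h1
    have h4 : 1024 * wb c t ≤ CC c * wb c t := Nat.mul_le_mul_right _ hC
    omega

lemma epo_le_ep (hc : 10 ≤ c) (ht : 1 ≤ epo c t) {s : ℕ} (h : wb c t ≤ s) : epo c t ≤ ep c s :=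
  (epo_le_ep_wb hc ht).trans (ep_mono h)

/-! ### the bottom of the zone -/

lemma ll_mono (hc : 10 ≤ c) {e e' : ℕ} (he : E0 c ≤ e) (h : e ≤ e') : ll c e ≤ ll c e' :=
  Nat.le_of_dvd ((small_grid hc).pos e') ((small_grid hc).mono e e' he h)

lemma hh_mono (hc : 10 ≤ c) {e e' : ℕ} (he : E0 c ≤ e) (h : e ≤ e') : hh c e ≤ hh c e' :=
  Nat.le_of_dvd ((mid_grid hc).pos e') ((mid_grid hc).mono e e' he h)

lemma ll_succ_le (hc : 10 ≤ c) {e : ℕ} (he : 9 ≤ e) : ll c (e + 1) ≤ CC c * ll c e := by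
  unfold ll CC
  rw [← pow_add]
  refine Nat.pow_le_pow_right (by norm_num) ?_
  have h1 := kk_mono (show e ≤ e + 1 by omega)
  have e1 : c * (e + 1 - 3) = c * (e - 3) + c * 1 := by rw [← mul_add]; congr 1; omega
  omega

/-- the small cells are very short -/
lemma ll_small (hc : 10 ≤ c) {e : ℕ} (he : E0 c ≤ e) : 64 * ll c (e + 1) ≤ hh c e := by
  have h0 := E0_ge hc
  have h1 := ll_succ_le hc (e := e) (by omega)
  rw [hh_eq_ll hc (by omega)]
  have h2 : CC c ≤ CC c ^ 8 := by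
    calc CC c = CC c ^ 1 := (pow_one _).symm
      _ ≤ _ := pow_le c (by norm_num)
  calc 64 * ll c (e + 1) ≤ 64 * (CC c * ll c e) := Nat.mul_le_mul_left _ h1
    _ = 64 * CC c * ll c e := by ring
    _ ≤ 2 ^ 9 * CC c ^ 8 * ll c e := by
      refine Nat.mul_le_mul_right _ ?_
      have : 64 * CC c ≤ 2 ^ 9 * CC c ^ 8 := by
        norm_num
        omega
      exact this

lemma ll_le_pow (hc : 10 ≤ c) {e : ℕ} (he : E0 c ≤ e) : 64 * ll c (e + 1) ≤ CC c ^ e := by
  have h1 := ll_small hc he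
  have h2 := hh_le_Wd hc he
  have : hh c e ≤ 2 ^ 14 * hh c e := Nat.le_mul_of_pos_left _ (by norm_num)
  omega

lemma pow_epo_le (ht : 1 ≤ epo c t) : CC c ^ (epo c t) ≤ t := by
  have h1 : 1 ≤ lg c t := by unfold epo at ht; omega
  have h0 : t ≠ 0 := by rintro rfl; simp [lg] at h1
  refine (pow_le c ?_).trans (lg_le c h0)
  unfold epo
  omega

/-- the grid points below `t` -/
structure ZSpec (c t : ℕ) : Prop where
  z : sb c (zb c t) = zb c t
  w : sb c (wn c t) = wn c t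
  s : sb c (sb c t) = sb c t
  zw : zb c t + Ld c (zb c t) = wn c t
  ws : wn c t + Ld c (wn c t) = sb c t
  le : sb c t ≤ t
  lt : t < sb c t + Ld c t
  lz : Ld c (zb c t) ≤ ll c (epo c t + 1)
  lw : Ld c (wn c t) ≤ ll c (epo c t + 1)
  lt' : Ld c t ≤ ll c (epo c t + 1)
  ep : epo c t ≤ ep c (zb c t)

/-- going back by one small cell -/
lemma sp_spec (hc : 10 ≤ c) {x : ℕ} (hx : sb c x = x) (h0 : 0 < x) (he : E0 c ≤ ep c (x - 1)) :
    sb c (sp c x) = sp c x ∧ sp c x + Ld c (sp c x) = x ∧ ep c (sp c x) = ep c (x - 1) := by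
  have hE := E0_ge hc
  have h1 := (small_grid hc).gb_gb hc he (by omega)
  have h2 := (small_grid hc).ep_gb hc he (by omega)
  refine ⟨h1, ?_, h2⟩
  have h3 := (small_grid hc).next_le (s := x - 1) (x := x) he hx (by omega)
  have h4 := (small_grid hc).lt_gb (x - 1)
  have e1 : Ld c (sp c x) = ll c (ep c (x - 1)) := by unfold Ld; rw [show ep c (sp c x) = _ from h2]
  rw [e1]
  show gb (ll c) c (x - 1) + _ = x
  omega

lemma zspec (hc : 10 ≤ c) (ht : E0 c ≤ epo c t) : ZSpec c t := by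
  have hE := E0_ge hc
  have hC := CC_ge hc
  have hl : 64 * ll c (epo c t + 1) ≤ t := (ll_le_pow hc ht).trans (pow_epo_le (by omega))
  have hep : ∀ x, t ≤ 4 * x → 0 < x → epo c t ≤ ep c x := by
    intro x hx h0
    refine ep_ge_of hc ?_
    have : 1024 * x ≤ CC c * x := Nat.mul_le_mul_right _ hC
    omega
  have hLd : ∀ x, x ≤ t → E0 c ≤ ep c x → Ld c x ≤ ll c (epo c t + 1) := by
    intro x hx he
    exact ll_mono hc he (ep_le_of hx)
  have ht0 : 0 < t := by
    have := pow_epo_le (c := c) (t := t) (by omega)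
    have := pow_pos' c (epo c t)
    omega
  have e0 : epo c t ≤ ep c t := hep t (by omega) ht0
  -- the first point
  have s1 := (small_grid hc).gb_gb hc (s := t) (by omega) (by omega)
  have s2 := gb_le (ll c) c t
  have s3 := (small_grid hc).lt_gb t
  have s4 := hLd t le_rfl (by omega)
  have s5 : sb c t = gb (ll c) c t := rfl
  have s6 : Ld c t = ll c (ep c t) := rfl
  -- the second point
  have w0 : E0 c ≤ ep c (sb c t - 1) := ht.trans (hep _ (by omega) (by omega))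
  obtain ⟨w1, w2, w3⟩ := sp_spec hc (x := sb c t) s1 (by omega) w0
  have w4 : Ld c (wn c t) ≤ ll c (epo c t + 1) := by
    refine hLd _ ?_ ?_
    · show sp c (sb c t) ≤ t
      omega
    · show E0 c ≤ ep c (sp c (sb c t))
      omega
  have w5 : wn c t = sp c (sb c t) := rfl
  rw [← w5] at w1 w2 w3
  -- the third point
  have z0 : E0 c ≤ ep c (wn c t - 1) := ht.trans (hep _ (by omega) (by omega))
  obtain ⟨z1, z2, z3⟩ := sp_spec hc (x := wn c t) w1 (by omega) z0
  have z5 : zb c t = sp c (wn c t) := rfl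
  rw [← z5] at z1 z2 z3
  have z6 := hep (wn c t - 1) (by omega) (by omega)
  have z4 : Ld c (zb c t) ≤ ll c (epo c t + 1) := hLd _ (by omega) (by omega)
  exact
    { z := z1
      w := w1
      s := s1
      zw := z2
      ws := w2
      le := by omega
      lt := by omega
      lz := z4
      lw := w4
      lt' := s4
      ep := by omega }

/-- the zone is short -/
lemma lt_zb_add (hc : 10 ≤ c) (ht : E0 c ≤ epo c t) : t < zb c t + 3 * ll c (epo c t + 1) := by
  have h := zspec hc ht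
  have := h.zw
  have := h.ws
  have := h.le
  have := h.lt
  have := h.lz
  have := h.lw
  have := h.lt'
  omega

lemma zb_lt (hc : 10 ≤ c) (ht : E0 c ≤ epo c t) : zb c t < t := by
  have h := zspec hc ht
  have h1 := (small_grid hc).pos (ep c (zb c t))
  have h2 : Ld c (zb c t) = ll c (ep c (zb c t)) := rfl
  have := h.zw
  have := h.ws
  have := h.le
  omega

lemma wb_le_zb (hc : 10 ≤ c) (ht : E0 c ≤ epo c t) : wb c t ≤ zb c t := by
  have hE := E0_ge hc
  by_contra hlt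
  push Not at hlt
  have h1 := of_lt_wb hc hlt
  have h2 := le_tU c 3 (un c (zb c t))
  have h3 := lt_un c (zb c t)
  have h4 := lt_zb_add hc ht
  have h5 := (zspec hc ht).ep
  have h6 := ll_le_pow hc ht
  have h7 : CC c ^ (epo c t) ≤ Wd c (zb c t) := pow_le c h5
  rw [Wd_un hc] at h2
  omega

end Pool.Agent.Helper86.E2
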