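import Mathlib
import Pool.Agent.Helper86.E2.Top

/-!
# E-T (MP_12a1af_nt), phase 2: the regions of the top zone

`topAt`: every position of `[wb c t, zb c t)` is in a region of the top zone.
`top_run`: on the region `d` the function `kid2` is constant.
-/

set_option autoImplicit false

namespace Pool.Agent.Helper86.E2

open Pool.Agent.Helper29.ETK (CC lg gl sl kk Gq Tq CC_pos CC_ge one_lt_CC pow_pos' pow_le pow_dvd'
  lg_le lt_lg lg_mono lg_eq le_lg lg_lt Gq_pos kk_le le_two_kk)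
open Pool.Agent.Helper29.E2
open Pool.Agent.E2 (Top OccT)

variable {c t : ℕ}

/-! ### positions in the same cell -/

lemma lt_sb (hc : 10 ≤ c) (s : ℕ) : s < sb c s + Ld c s := (small_grid hc).lt_gb s

lemma lt_mb (hc : 10 ≤ c) (s : ℕ) : s < mb c s + Hd c s := (mid_grid hc).lt_gb s

lemma sb_le (c s : ℕ) : sb c s ≤ s := gb_le _ _ _

lemma mb_le (c s : ℕ) : mb c s ≤ s := gb_le _ _ _

section large

variable {s b : ℕ}

lemma Ld_sb (hc : 10 ≤ c) (he : E0 c ≤ ep c s) : Ld c (sb c s) = Ld c s := by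
  have hE := E0_ge hc
  unfold Ld
  rw [sb_eq_gb, (small_grid hc).ep_gb hc he (by omega)]

lemma Hd_mb (hc : 10 ≤ c) (he : E0 c ≤ ep c s) : Hd c (mb c s) = Hd c s := by
  have hE := E0_ge hc
  unfold Hd
  rw [mb_eq_gb, (mid_grid hc).ep_gb hc he (by omega)]

lemma ep_sb (hc : 10 ≤ c) (he : E0 c ≤ ep c s) : ep c (sb c s) = ep c s := by
  have hE := E0_ge hc
  rw [sb_eq_gb, (small_grid hc).ep_gb hc he (by omega)]

lemma ep_mb (hc : 10 ≤ c) (he : E0 c ≤ ep c s) : ep c (mb c s) = ep c s := by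
  have hE := E0_ge hc
  rw [mb_eq_gb, (mid_grid hc).ep_gb hc he (by omega)]

lemma sb_sb (hc : 10 ≤ c) (he : E0 c ≤ ep c s) : sb c (sb c s) = sb c s := by
  have hE := E0_ge hc
  simp only [sb_eq_gb]
  exact (small_grid hc).gb_gb hc he (by omega)

lemma mb_mb (hc : 10 ≤ c) (he : E0 c ≤ ep c s) : mb c (mb c s) = mb c s := by
  have hE := E0_ge hc
  simp only [mb_eq_gb]
  exact (mid_grid hc).gb_gb hc he (by omega)

lemma mb_sb (hc : 10 ≤ c) (he : E0 c ≤ ep c s) : mb c (sb c s) = mb c s := by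
  have hE := E0_ge hc
  simp only [mb_eq_gb, sb_eq_gb]
  exact gb_gb_of_dvd hc (small_grid hc) (mid_grid hc) he (by omega) (ll_dvd_hh hc he)

lemma un_mb (hc : 10 ≤ c) (he : E0 c ≤ ep c s) : un c (mb c s) = un c s := by
  have hE := E0_ge hc
  simp only [mb_eq_gb, un_eq_gb]
  exact gb_gb_of_dvd hc (mid_grid hc) (unit_grid c (E0 c)) he (by omega)
    ((mid_grid hc).dvd _ he)

lemma un_sb (hc : 10 ≤ c) (he : E0 c ≤ ep c s) : un c (sb c s) = un c s := by
  rw [← un_mb hc (s := sb c s) (by rw [ep_sb hc he]; exact he), mb_sb hc he, un_mb hc he]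

/-- the positions of a unit -/
lemma un_of_mem (hc : 10 ≤ c) (he : 1 ≤ ep c b) (hb : un c b = b) (h1 : b ≤ s)
    (h2 : s < b + Wd c b) : un c s = b ∧ ep c s = ep c b :=
  (unit_grid c 0).gb_of_mem hc (Nat.zero_le _) he hb h1 h2

/-- the positions of a mid block -/
lemma mb_of_mem (hc : 10 ≤ c) (he : E0 c ≤ ep c b) (hb : mb c b = b) (h1 : b ≤ s)
    (h2 : s < b + Hd c b) : mb c s = b ∧ ep c s = ep c b := by
  have hE := E0_ge hc
  exact (mid_grid hc).gb_of_mem hc he (by omega) hb h1 h2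

/-- the positions of a small cell -/
lemma sb_of_mem (hc : 10 ≤ c) (he : E0 c ≤ ep c b) (hb : sb c b = b) (h1 : b ≤ s)
    (h2 : s < b + Ld c b) : sb c s = b ∧ ep c s = ep c b := by
  have hE := E0_ge hc
  exact (small_grid hc).gb_of_mem hc he (by omega) hb h1 h2

lemma un_le_mb (hc : 10 ≤ c) (he : E0 c ≤ ep c s) : un c s ≤ mb c s := by
  rw [← un_mb hc he]; exact un_le c _

lemma mb_le_sb (hc : 10 ≤ c) (he : E0 c ≤ ep c s) : mb c s ≤ sb c s := by
  rw [← mb_sb hc he]; exact mb_le c _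

/-- a mid block is inside its unit -/
lemma mb_add_le (hc : 10 ≤ c) (he : E0 c ≤ ep c s) : mb c s + Hd c s ≤ un c s + Wd c s := by
  refine add_le_of_dvd (dvd_gb (hh c) c s) ?_ ?_
  · refine Dvd.dvd.add ?_ ?_
    · exact ((mid_grid hc).dvd _ he).trans (Wd_dvd_un c s)
    · exact (mid_grid hc).dvd _ he
  · exact lt_of_le_of_lt (gb_le _ _ _) (lt_un c s)

/-- a small cell is inside its mid block -/
lemma sb_add_le (hc : 10 ≤ c) (he : E0 c ≤ ep c s) : sb c s + Ld c s ≤ mb c s + Hd c s := by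
  refine add_le_of_dvd (dvd_gb (ll c) c s) ?_ ?_
  · refine Dvd.dvd.add ?_ ?_
    · exact (ll_dvd_hh hc he).trans (dvd_gb (hh c) c s)
    · exact ll_dvd_hh hc he
  · exact lt_of_le_of_lt (gb_le _ _ _) (lt_mb hc s)

end large

/-! ### the description of a position -/

lemma kid2_of_wb_le {s : ℕ} (h : wb c t ≤ s) : kid2 c t s = kidU c t s := by
  unfold kid2
  rw [if_neg (by omega)]

/-- **every position of the top zone has a description** -/
theorem topAt (hc : 10 ≤ c) (ht : E0 c ≤ epo c t) {s : ℕ} (h1 : wb c t ≤ s) (h2 : s < zb c t) :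
    ∃ d : Top, kid2 c t s = d.kid ∧ OccT c t d ∧ d.lo ≤ s ∧ s < d.hi c := by
  have hE := E0_ge hc
  have he : epo c t ≤ ep c s := epo_le_ep hc (by omega) h1
  have heE : E0 c ≤ ep c s := ht.trans he
  have hu := wb_le_un hc h1
  have ht3 := lt_tU_of_wb_le hc h1
  have hzb := lt_zb_add hc ht
  have hW : 64 * ll c (epo c t + 1) ≤ Wd c s := (ll_le_pow hc ht).trans (pow_le c he)
  have hH : 64 * ll c (epo c t + 1) ≤ Hd c s := (ll_small hc ht).trans (hh_mono hc ht he)
  have hWu := Wd_un hc s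
  have hHm := Hd_mb hc heE
  have a1 := un_le c s
  have a2 := lt_un c s
  have a3 := mb_le c s
  have a4 := lt_mb hc s
  have a5 := un_le_mb hc heE
  rw [kid2_of_wb_le h1]
  unfold kidU
  by_cases c2 : tU c 2 (un c s) ≤ t
  · rw [if_pos c2]
    have c3 := le_tU c 2 (un c s)
    refine ⟨.T2 (un c s), rfl, ⟨⟨un_un hc s, c2, ht3⟩, hu, ?_⟩, a1, ?_⟩
    · show un c s + Wd c (un c s) ≤ zb c t
      omega
    · show s < un c s + Wd c (un c s)
      omega
  rw [if_neg c2]
  push Not at c2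
  by_cases c1 : tU c 1 (un c s) ≤ t
  · rw [if_pos c1]
    have c3 := le_tU c 1 (un c s)
    refine ⟨.C2 (un c s), rfl, ⟨⟨un_un hc s, c1, c2⟩, hu, ?_⟩, a1, ?_⟩
    · show un c s + Wd c (un c s) ≤ zb c t
      omega
    · show s < un c s + Wd c (un c s)
      omega
  rw [if_neg c1]
  push Not at c1
  unfold kidB
  have hum : un c (mb c s) = un c s := un_mb hc heE
  by_cases m3 : tB c 3 (mb c s) ≤ t
  · rw [if_pos m3]
    have m := le_tB c 3 (mb c s)
    refine ⟨.mid (mb c s), rfl, ⟨⟨mb_mb hc heE, m3, by rw [hum]; exact c1⟩, ?_, ?_⟩, a3, ?_⟩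
    · show wb c t ≤ mb c s
      omega
    · show mb c s + Hd c (mb c s) ≤ zb c t
      omega
    · show s < mb c s + Hd c (mb c s)
      omega
  rw [if_neg m3]
  push Not at m3
  by_cases m2 : tB c 2 (mb c s) ≤ t
  · rw [if_pos m2]
    have m := le_tB c 2 (mb c s)
    refine ⟨.T1 (mb c s), rfl, ⟨⟨mb_mb hc heE, m2, m3, by rw [hum]; exact c1⟩, ?_, ?_⟩, a3, ?_⟩
    · show wb c t ≤ mb c s
      omega
    · show mb c s + Hd c (mb c s) ≤ zb c t
      omega
    · show s < mb c s + Hd c (mb c s)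
      omega
  rw [if_neg m2]
  push Not at m2
  by_cases m1 : tB c 1 (mb c s) ≤ t
  · rw [if_pos m1]
    have m := le_tB c 1 (mb c s)
    refine ⟨.C1 (mb c s), rfl, ⟨⟨mb_mb hc heE, m1, m2, by rw [hum]; exact c1⟩, ?_, ?_⟩, a3, ?_⟩
    · show wb c t ≤ mb c s
      omega
    · show mb c s + Hd c (mb c s) ≤ zb c t
      omega
    · show s < mb c s + Hd c (mb c s)
      omega
  rw [if_neg m1]
  push Not at m1
  refine ⟨.cell (sb c s), rfl, ⟨⟨sb_sb hc heE, ?_, ?_⟩, ?_, ?_⟩, sb_le c s, ?_⟩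
  · rw [mb_sb hc heE]; exact m1
  · rw [un_sb hc heE]; exact c1
  · show wb c t ≤ sb c s
    have := mb_le_sb hc heE
    omega
  · show sb c s + Ld c (sb c s) ≤ zb c t
    rw [Ld_sb hc heE]
    exact (small_grid hc).next_le heE (zspec hc ht).z h2
  · show s < sb c s + Ld c (sb c s)
    rw [Ld_sb hc heE]
    exact lt_sb hc s

/-- **the kind is constant on a region of the top zone** -/
theorem top_run (hc : 10 ≤ c) (ht : E0 c ≤ epo c t) {d : Top} (hd : OccT c t d) {s : ℕ}
    (h1 : d.lo ≤ s) (h2 : s < d.hi c) : kid2 c t s = d.kid := by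
  have hE := E0_ge hc
  obtain ⟨hat, hw, hz⟩ := hd
  have he : E0 c ≤ ep c d.lo := ht.trans (epo_le_ep hc (by omega) hw)
  have hs : wb c t ≤ s := hw.trans h1
  have heS : E0 c ≤ ep c s := he.trans (ep_mono h1)
  rw [kid2_of_wb_le hs]
  cases d with
  | T2 b =>
    obtain ⟨q1, q2, q3⟩ := hat
    have e1 : un c s = b := (un_of_mem hc ((by omega : 1 ≤ E0 c).trans he) q1 h1 h2).1
    unfold kidU
    rw [e1, if_pos q2]
    rfl
  | C2 b =>
    obtain ⟨q1, q2, q3⟩ := hat
    have e1 : un c s = b := (un_of_mem hc ((by omega : 1 ≤ E0 c).trans he) q1 h1 h2).1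
    unfold kidU
    rw [e1, if_neg (by omega), if_pos q2]
    rfl
  | mid f =>
    obtain ⟨q1, q2, q3⟩ := hat
    have e1 : mb c s = f := (mb_of_mem hc he q1 h1 h2).1
    have e2 : un c s = un c f := by rw [← un_mb hc heS, e1]
    have e3 := tU_le c (show 1 ≤ 2 by norm_num) (un c f)
    unfold kidU kidB
    rw [e2, e1, if_neg (by omega), if_neg (by omega), if_pos q2]
    rfl
  | T1 f =>
    obtain ⟨q1, q2, q3, q4⟩ := hat
    have e1 : mb c s = f := (mb_of_mem hc he q1 h1 h2).1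
    have e2 : un c s = un c f := by rw [← un_mb hc heS, e1]
    have e3 := tU_le c (show 1 ≤ 2 by norm_num) (un c f)
    unfold kidU kidB
    rw [e2, e1, if_neg (by omega), if_neg (by omega), if_neg (by omega), if_pos q2]
    rfl
  | C1 f =>
    obtain ⟨q1, q2, q3, q4⟩ := hat
    have e1 : mb c s = f := (mb_of_mem hc he q1 h1 h2).1
    have e2 : un c s = un c f := by rw [← un_mb hc heS, e1]
    have e3 := tU_le c (show 1 ≤ 2 by norm_num) (un c f)
    have e4 := tB_le c (show 2 ≤ 3 by norm_num) f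
    unfold kidU kidB
    rw [e2, e1, if_neg (by omega), if_neg (by omega), if_neg (by omega), if_neg (by omega),
      if_pos q2]
    rfl
  | cell p =>
    obtain ⟨q1, q2, q3⟩ := hat
    have e1 : sb c s = p := (sb_of_mem hc he q1 h1 h2).1
    have e2 : un c s = un c p := by rw [← un_sb hc heS, e1]
    have e5 : mb c s = mb c p := by rw [← mb_sb hc heS, e1]
    have e3 := tU_le c (show 1 ≤ 2 by norm_num) (un c p)
    have e4 := tB_le c (show 2 ≤ 3 by norm_num) (mb c p)
    have e6 := tB_le c (show 1 ≤ 2 by norm_num) (mb c p)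
    unfold kidU kidB
    rw [e2, e5, e1, if_neg (by omega), if_neg (by omega), if_neg (by omega), if_neg (by omega),
      if_neg (by omega)]
    rfl

lemma Top.kid_inj {d d' : Top} (h : d.kid = d'.kid) : d = d' := by
  cases d <;> cases d' <;> simp_all [Top.kid]

lemma Top.len_pos (hc : 10 ≤ c) (d : Top) : 0 < d.len c := by
  cases d with
  | T2 b => exact Wd_pos c b
  | C2 b => exact Wd_pos c b
  | mid f => exact (mid_grid hc).pos _
  | T1 f => exact (mid_grid hc).pos _
  | C1 f => exact (mid_grid hc).pos _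
  | cell p => exact (small_grid hc).pos _

/-- the description of a position is unique -/
theorem top_unique (hc : 10 ≤ c) (ht : E0 c ≤ epo c t) {d : Top} {s : ℕ} (h1 : wb c t ≤ s)
    (h2 : s < zb c t) (h : kid2 c t s = d.kid) : OccT c t d ∧ d.lo ≤ s ∧ s < d.hi c := by
  obtain ⟨d', h3, h4, h5, h6⟩ := topAt hc ht h1 h2
  have : d' = d := Top.kid_inj (h3.symm.trans h)
  subst this
  exact ⟨h4, h5, h6⟩

/-- the run of `kid2` through a position is the region -/
theorem top_rend (hc : 10 ≤ c) (ht : E0 c ≤ epo c t) {d : Top} (hd : OccT c t d) :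
    (d.lo = 0 ∨ kid2 c t (d.lo - 1) ≠ kid2 c t d.lo) ∧
    (d.hi c = zb c t ∨ kid2 c t (d.hi c) ≠ kid2 c t d.lo) := by
  have hlen := Top.len_pos hc d
  have hlo : d.lo < d.hi c := by unfold Top.hi; omega
  have hk := top_run hc ht hd le_rfl hlo
  obtain ⟨hat, hw, hz⟩ := hd
  constructor
  · rcases Nat.eq_zero_or_pos d.lo with h | h
    · exact Or.inl h
    right
    intro he
    rw [hk] at he
    rcases Nat.lt_or_ge (d.lo - 1) (wb c t) with h3 | h3
    · unfold kid2 at he
      rw [if_pos h3] at he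
      cases d <;> simp [Top.kid] at he
    · have := (top_unique hc ht h3 (by omega) he).2.1
      omega
  · rcases Nat.eq_or_lt_of_le hz with h | h
    · exact Or.inl h
    right
    intro he
    rw [hk] at he
    have := (top_unique hc ht (by omega) h he).2.2
    omega

end Pool.Agent.Helper86.E2
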