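import Mathlib
import Pool.Agent.ETS.PhiV
import Pool.Agent.Helper5.ETP.CrossZ
import Pool.Agent.Helper16.E2.Reg2

/-!
# E-T (MP_12a1af_nt), phase 2: far pairs, cells of the top zone

Everything here is independent of the regions and of the schedule.  `CellU s l X M Z`: the zone `Z`
is a union of at most `M` zones of one cell on `[s, s + l)` with the contents `X` (known digits
below `s`, known shift).  An ordinary cell has `M = 1`; a pair of consecutive small cells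
`[s0, s)`, `[s, s + l)` has `M` the number of contents of the lower one.
-/

set_option autoImplicit false

open Finset

namespace Pool.Agent.Helper86.E2

open Pool.Agent.ETS
open Pool.Agent.ETP (phiV)
open Pool.Agent.Helper5.ETP
open Pool.Agent.E2 (comp)

/-- a union of at most `M` zones of one cell -/
def CellU (s l : ℕ) (X : Finset ℕ) (M : ℕ) (Z : Zone) : Prop :=
  Z.top = s + l ∧ ∃ (I : Finset ℕ) (a κ : ℕ → ℕ), I.card ≤ M ∧ (∀ i ∈ I, a i < 2 ^ s) ∧
    ∀ v ∈ Z.S, ∃ i ∈ I, ∃ x ∈ X, v = a i + 2 ^ s * ((x + κ i) % 2 ^ l)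

/-- the bound wanted for a far pair of zones, tops `al`, `al'` -/
def FarB (q K K' al al' : ℕ) (P P' : Zone → Prop) : Prop :=
  ∃ B : ℕ, (∀ n Z Z', P Z → P' Z' → (zcons K K' n Z Z').card ≤ B) ∧
    (B : ℝ) * phiV K K' al al' ≤ (1/2) ^ q

lemma FarB.mono {q K K' al al' : ℕ} {P P' Q Q' : Zone → Prop} (h : FarB q K K' al al' P P')
    (hQ : ∀ Z, Q Z → P Z) (hQ' : ∀ Z, Q' Z → P' Z) : FarB q K K' al al' Q Q' := by
  obtain ⟨B, h1, h2⟩ := h
  exact ⟨B, fun n Z Z' hZ hZ' => h1 n Z Z' (hQ Z hZ) (hQ' Z' hZ'), h2⟩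

/-- at most `B` elements in a residue class modulo `2 ^ j` -/
def LowB (j : ℕ) (X : Finset ℕ) (B : ℕ) : Prop :=
  ∀ r, (X.filter (fun x => x ≡ r [MOD 2 ^ j])).card ≤ B

/-- at most `B` pairs with prescribed `x + 2 ^ j * x'` modulo `2 ^ (j + m)` -/
def SumJ (j m : ℕ) (X X' : Finset ℕ) (B : ℕ) : Prop :=
  ∀ r, ((X ×ˢ X').filter (fun p => p.1 + 2 ^ j * p.2 ≡ r [MOD 2 ^ (j + m)])).card ≤ B

lemma LowB.mono {j : ℕ} {X : Finset ℕ} {B B' : ℕ} (h : LowB j X B) (hB : B ≤ B') : LowB j X B' :=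
  fun r => (h r).trans hB

lemma SumJ.mono {j m : ℕ} {X X' : Finset ℕ} {B B' : ℕ} (h : SumJ j m X X' B) (hB : B ≤ B') :
    SumJ j m X X' B' := fun r => (h r).trans hB

/-! ### zones -/

lemma add_mul_mod_lt {a s l x : ℕ} (ha : a < 2 ^ s) : a + 2 ^ s * (x % 2 ^ l) < 2 ^ (s + l) := by
  have m : x % 2 ^ l < 2 ^ l := Nat.mod_lt _ (by positivity)
  rw [pow_add]
  calc a + 2 ^ s * (x % 2 ^ l) < 2 ^ s * 1 + 2 ^ s * (x % 2 ^ l) := by omega
    _ = 2 ^ s * (1 + x % 2 ^ l) := by ring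
    _ ≤ _ := Nat.mul_le_mul_left _ (by omega)

lemma CellU.ok {s l : ℕ} {X : Finset ℕ} {M : ℕ} {Z : Zone} (h : CellU s l X M Z) : Zone.Ok Z := by
  intro v hv
  obtain ⟨ht, I, a, κ, -, ha, h⟩ := h
  obtain ⟨i, hi, x, -, rfl⟩ := h v hv
  rw [ht]
  exact add_mul_mod_lt (ha i hi)

lemma CellU.top {s l : ℕ} {X : Finset ℕ} {M : ℕ} {Z : Zone} (h : CellU s l X M Z) :
    Z.top = s + l := h.1

lemma CellU.card_le {s l : ℕ} {X : Finset ℕ} {M : ℕ} {Z : Zone} (h : CellU s l X M Z) :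
    Z.S.card ≤ M * X.card := by
  classical
  obtain ⟨-, I, a, κ, hI, -, h⟩ := h
  have : Z.S ⊆ (I ×ˢ X).image (fun p => a p.1 + 2 ^ s * ((p.2 + κ p.1) % 2 ^ l)) := by
    intro v hv
    obtain ⟨i, hi, x, hx, rfl⟩ := h v hv
    exact mem_image.mpr ⟨(i, x), mem_product.mpr ⟨hi, hx⟩, rfl⟩
  refine (card_le_card this).trans (card_image_le.trans ?_)
  rw [card_product]
  exact Nat.mul_le_mul_right _ hI

lemma CellU.mono {s l : ℕ} {X X' : Finset ℕ} {M M' : ℕ} {Z : Zone} (h : CellU s l X M Z)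
    (hX : X ⊆ X') (hM : M ≤ M') : CellU s l X' M' Z := by
  obtain ⟨ht, I, a, κ, hI, ha, h⟩ := h
  refine ⟨ht, I, a, κ, hI.trans hM, ha, fun v hv => ?_⟩
  obtain ⟨i, hi, x, hx, e⟩ := h v hv
  exact ⟨i, hi, x, hX hx, e⟩

/-- the zone of one cell -/
lemma cellU_one {s l a κ : ℕ} {X : Finset ℕ} {Z : Zone} (ha : a < 2 ^ s) (ht : Z.top = s + l)
    (hS : ∀ v ∈ Z.S, ∃ x ∈ X, v = a + 2 ^ s * ((x + κ) % 2 ^ l)) : CellU s l X 1 Z :=
  ⟨ht, {0}, fun _ => a, fun _ => κ, by simp, fun _ _ => ha, fun v hv => by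
    obtain ⟨x, hx, e⟩ := hS v hv
    exact ⟨0, by simp, x, hx, e⟩⟩

/-- the zone of two consecutive cells, the shift of the second one being known -/
lemma cellU_two {s l₀ l a κ κ' : ℕ} {X₀ X : Finset ℕ} {Z : Zone} (ha : a < 2 ^ s)
    (ht : Z.top = s + l₀ + l)
    (hS : ∀ v ∈ Z.S, ∃ x₀ ∈ X₀, ∃ x ∈ X, v = a + 2 ^ s * ((x₀ + κ) % 2 ^ l₀) +
      2 ^ (s + l₀) * ((x + κ') % 2 ^ l)) : CellU (s + l₀) l X X₀.card Z :=
  ⟨ht, X₀, fun x₀ => a + 2 ^ s * ((x₀ + κ) % 2 ^ l₀), fun _ => κ', le_rfl,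
    fun _ _ => add_mul_mod_lt ha, fun v hv => by
      obtain ⟨x₀, hx₀, x, hx, e⟩ := hS v hv
      exact ⟨x₀, hx₀, x, hx, e⟩⟩

/-- **one cell inside another one** (the cell of `K` contains the one of `K'`) -/
theorem cellU_in {s l j l' : ℕ} {X X' : Finset ℕ} {M M' K K' n B : ℕ} {Z Z' : Zone}
    (hZ : CellU s l X M Z) (hZ' : CellU (s + j) l' X' M' Z') (hj : j + l' ≤ l) (hK : s + l ≤ K)
    (hK' : s + j + l' ≤ K') (hB : SumJ j l' X X' B) :
    (zcons K K' n Z Z').card ≤ M * M' * B := by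
  classical
  obtain ⟨ht, I, a, κ, hI, -, h⟩ := hZ
  obtain ⟨ht', I', a', κ', hI', -, h'⟩ := hZ'
  choose! i hi x hx e using h
  choose! i' hi' x' hx' e' using h'
  set G : Finset ((ℕ × ℕ) × (ℕ × ℕ)) := (I ×ˢ I').biUnion (fun p =>
    ((X ×ˢ X').filter (fun q => (a p.1 + 2 ^ s * ((q.1 + κ p.1) % 2 ^ l)) +
      (a' p.2 + 2 ^ (s + j) * ((q.2 + κ' p.2) % 2 ^ l')) ≡ n [MOD 2 ^ (s + j + l')])).image
      (fun q => (p, q))) with hG
  have h1 : (zcons K K' n Z Z').card ≤ G.card := by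
    refine Finset.card_le_card_of_injOn (fun t => ((i t.1, i' t.2), (x t.1, x' t.2))) ?_ ?_
    · intro t ht1
      rw [mem_coe] at ht1 ⊢
      have h2 := mem_zcons.mp ht1
      have h3 := zcons_modEq (m := s + j + l') (by omega) (by omega) ht1 (by omega) (by omega)
      rw [hG, mem_biUnion]
      refine ⟨(i t.1, i' t.2), mem_product.mpr ⟨hi _ h2.1.1, hi' _ h2.1.2⟩, ?_⟩
      rw [mem_image]
      refine ⟨(x t.1, x' t.2), ?_, rfl⟩
      rw [mem_filter, mem_product]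
      refine ⟨⟨hx _ h2.1.1, hx' _ h2.1.2⟩, ?_⟩
      dsimp only
      rw [← e _ h2.1.1, ← e' _ h2.1.2]
      exact h3
    · intro t ht1 u hu he
      have h2 := (mem_zcons.mp (mem_coe.mp ht1)).1
      have h3 := (mem_zcons.mp (mem_coe.mp hu)).1
      simp only [Prod.mk.injEq] at he
      obtain ⟨⟨q1, q2⟩, q3, q4⟩ := he
      refine Prod.ext ?_ ?_
      · rw [e _ h2.1, e _ h3.1, q1, q3]
      · rw [e' _ h2.2, e' _ h3.2, q2, q4]
  refine h1.trans ?_
  have h2 : G.card ≤ ∑ p ∈ I ×ˢ I', B := by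
    rw [hG]
    refine card_biUnion_le.trans (sum_le_sum fun p _ => ?_)
    refine card_image_le.trans ?_
    -- the solutions of one congruence
    rcases ((X ×ˢ X').filter (fun q => (a p.1 + 2 ^ s * ((q.1 + κ p.1) % 2 ^ l)) +
      (a' p.2 + 2 ^ (s + j) * ((q.2 + κ' p.2) % 2 ^ l')) ≡ n [MOD 2 ^ (s + j + l')])).eq_empty_or_nonempty
      with h0 | ⟨q0, hq0⟩
    · rw [h0]; simp
    refine le_trans (card_le_card ?_) (hB (q0.1 + 2 ^ j * q0.2))
    have key : ∀ q : ℕ × ℕ, (a p.1 + 2 ^ s * ((q.1 + κ p.1) % 2 ^ l)) +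
        (a' p.2 + 2 ^ (s + j) * ((q.2 + κ' p.2) % 2 ^ l')) ≡
        2 ^ s * (q.1 + 2 ^ j * q.2) + (a p.1 + a' p.2 + 2 ^ s * κ p.1 + 2 ^ (s + j) * κ' p.2)
          [MOD 2 ^ (s + j + l')] := by
      intro q
      have a1 : 2 ^ s * ((q.1 + κ p.1) % 2 ^ l) ≡ 2 ^ s * (q.1 + κ p.1) [MOD 2 ^ (s + j + l')] := by
        have : 2 ^ s * ((q.1 + κ p.1) % 2 ^ l) ≡ 2 ^ s * (q.1 + κ p.1) [MOD 2 ^ s * 2 ^ l] :=
          Nat.ModEq.mul_left' _ (Nat.mod_modEq _ _)
        rw [← pow_add] at this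
        exact this.of_dvd (pow_dvd_pow 2 (by omega))
      have a2 : 2 ^ (s + j) * ((q.2 + κ' p.2) % 2 ^ l') ≡ 2 ^ (s + j) * (q.2 + κ' p.2)
          [MOD 2 ^ (s + j + l')] := by
        have : 2 ^ (s + j) * ((q.2 + κ' p.2) % 2 ^ l') ≡ 2 ^ (s + j) * (q.2 + κ' p.2)
          [MOD 2 ^ (s + j) * 2 ^ l'] := Nat.ModEq.mul_left' _ (Nat.mod_modEq _ _)
        rw [← pow_add] at this
        exact this
      have a3 := ((Nat.ModEq.refl (a p.1)).add a1).add ((Nat.ModEq.refl (a' p.2)).add a2)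
      refine a3.trans ?_
      have : a p.1 + 2 ^ s * (q.1 + κ p.1) + (a' p.2 + 2 ^ (s + j) * (q.2 + κ' p.2)) =
        2 ^ s * (q.1 + 2 ^ j * q.2) + (a p.1 + a' p.2 + 2 ^ s * κ p.1 + 2 ^ (s + j) * κ' p.2) := by
        rw [pow_add]; ring
      rw [this]
    intro q hq
    rw [mem_filter] at hq hq0 ⊢
    refine ⟨hq.1, ?_⟩
    have e1 := (key q).symm.trans (hq.2.trans (hq0.2.symm.trans (key q0)))
    have e2 := Nat.ModEq.add_right_cancel' _ e1
    have e3 : s + j + l' = s + (j + l') := by ring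
    rw [e3, pow_add] at e2
    exact Nat.ModEq.mul_left_cancel' (by positivity) e2
  refine h2.trans ?_
  rw [sum_const, card_product, smul_eq_mul]
  exact Nat.mul_le_mul_right _ (Nat.mul_le_mul hI hI')

/-! ### counting -/

lemma sumJ_zero {m : ℕ} {X X' : Finset ℕ} {B : ℕ} (h : SumB m X X' B) : SumJ 0 m X X' B := by
  intro r
  refine le_trans (card_le_card ?_) (h r)
  intro p hp
  rw [mem_filter] at hp ⊢
  simpa using hp

/-- the contents of the inner cell are determined -/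
lemma sumJ_of_low {j m : ℕ} {X X' : Finset ℕ} {B : ℕ} (h : LowB j X B)
    (hX' : ∀ x ∈ X', x < 2 ^ m) : SumJ j m X X' B := by
  classical
  intro r
  refine le_trans (Finset.card_le_card_of_injOn (fun p => p.1) (fun p hp => ?_) ?_) (h r)
  · rw [mem_coe, mem_filter, mem_product] at hp
    rw [mem_coe, mem_filter]
    refine ⟨hp.1.1, ?_⟩
    have h1 := hp.2.of_dvd (pow_dvd_pow 2 (show j ≤ j + m by omega))
    have h2 : p.1 + 2 ^ j * p.2 ≡ p.1 + 0 [MOD 2 ^ j] :=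
      (Nat.ModEq.refl _).add (Nat.modEq_zero_iff_dvd.mpr (Dvd.intro _ rfl))
    exact (h2.symm.trans h1)
  · intro p hp q hq he
    rw [mem_coe, mem_filter, mem_product] at hp hq
    simp only at he
    have h1 := hp.2.trans hq.2.symm
    rw [he] at h1
    have h2 := Nat.ModEq.add_left_cancel' _ h1
    rw [pow_add] at h2
    have h3 := Nat.ModEq.mul_left_cancel' (by positivity) h2
    exact Prod.ext he (h3.eq_of_lt_of_lt (hX' _ hp.1.2) (hX' _ hq.1.2))

/-- the contents of the inner cell are free -/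
lemma sumJ_of_low' {j m : ℕ} {X X' : Finset ℕ} {B : ℕ} (h : LowB (j + m) X B) :
    SumJ j m X X' (X'.card * B) := by
  classical
  intro r
  have h1 : (X ×ˢ X').filter (fun p => p.1 + 2 ^ j * p.2 ≡ r [MOD 2 ^ (j + m)]) ⊆
      X'.biUnion (fun y => (X.filter (fun x => x + 2 ^ j * y ≡ r [MOD 2 ^ (j + m)])).image
        (fun x => (x, y))) := by
    intro p hp
    rw [mem_filter, mem_product] at hp
    rw [mem_biUnion]
    refine ⟨p.2, hp.1.2, ?_⟩
    rw [mem_image]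
    exact ⟨p.1, by rw [mem_filter]; exact ⟨hp.1.1, hp.2⟩, rfl⟩
  refine (card_le_card h1).trans ?_
  refine card_biUnion_le.trans ?_
  rw [← smul_eq_mul, ← sum_const]
  refine sum_le_sum fun y _ => ?_
  refine card_image_le.trans ?_
  rcases (X.filter (fun x => x + 2 ^ j * y ≡ r [MOD 2 ^ (j + m)])).eq_empty_or_nonempty with
    h0 | ⟨x0, hx0⟩
  · rw [h0]; simp
  refine le_trans (card_le_card ?_) (h x0)
  intro x hx
  rw [mem_filter] at hx hx0 ⊢
  exact ⟨hx.1, Nat.ModEq.add_right_cancel' _ (hx.2.trans hx0.2.symm)⟩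

/-- trivial bound for the residue classes -/
lemma lowB_card (j : ℕ) (X : Finset ℕ) : LowB j X X.card := fun _ => card_filter_le _ _

/-! ### concatenations of equal cells -/

lemma mem_comp_succ {l n x : ℕ} {S : Finset ℕ} :
    x ∈ comp S l (n + 1) ↔ ∃ u ∈ S, ∃ y ∈ comp S l n, u + 2 ^ l * y = x := by
  simp only [comp, mem_image, mem_product]
  constructor
  · rintro ⟨p, ⟨h1, h2⟩, h3⟩
    exact ⟨p.1, h1, p.2, h2, h3⟩
  · rintro ⟨u, hu, y, hy, h⟩
    exact ⟨(u, y), ⟨hu, hy⟩, h⟩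

lemma comp_lt {l : ℕ} {S : Finset ℕ} (hS : ∀ x ∈ S, x < 2 ^ l) :
    ∀ (n : ℕ), ∀ x ∈ comp S l n, x < 2 ^ (n * l)
  | 0, x, hx => by
    simp only [comp, mem_singleton] at hx
    subst hx
    positivity
  | n + 1, x, hx => by
    obtain ⟨u, hu, y, hy, rfl⟩ := mem_comp_succ.mp hx
    have h1 := hS u hu
    have h2 := comp_lt hS n y hy
    have h3 : 2 ^ ((n + 1) * l) = 2 ^ l * 2 ^ (n * l) := by rw [← pow_add]; congr 1; ring
    rw [h3]
    calc u + 2 ^ l * y < 2 ^ l * 1 + 2 ^ l * y := by omega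
      _ = 2 ^ l * (1 + y) := by ring
      _ ≤ _ := Nat.mul_le_mul_left _ (by omega)

lemma comp_card_le (l : ℕ) (S : Finset ℕ) : ∀ n, (comp S l n).card ≤ S.card ^ n
  | 0 => by simp [comp]
  | n + 1 => by
    refine card_image_le.trans ?_
    rw [card_product, pow_succ, mul_comm]
    exact Nat.mul_le_mul_right _ (comp_card_le l S n)

/-- concatenations against concatenations -/
lemma comp_comp {l B : ℕ} {S : Finset ℕ} (hS : ∀ x ∈ S, x < 2 ^ l) (hB : SumB l S S B) :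
    ∀ n, SumJ 0 (n * l) (comp S l n) (comp S l n) (B ^ n)
  | 0 => by
    intro r
    refine (card_filter_le _ _).trans ?_
    simp [comp]
  | n + 1 => by
    classical
    intro r
    have ih := comp_comp hS hB n
    set F := (comp S l (n + 1) ×ˢ comp S l (n + 1)).filter
      (fun p => p.1 + 2 ^ 0 * p.2 ≡ r [MOD 2 ^ (0 + (n + 1) * l)]) with hF
    set A := (S ×ˢ S).filter (fun t => t.1 + t.2 ≡ r [MOD 2 ^ l]) with hA
    have hsub : F ⊆ A.biUnion (fun t => (((comp S l n ×ˢ comp S l n).filter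
        (fun q => (t.1 + 2 ^ l * q.1) + (t.2 + 2 ^ l * q.2) ≡ r [MOD 2 ^ ((n + 1) * l)])).image
        (fun q => (t.1 + 2 ^ l * q.1, t.2 + 2 ^ l * q.2)))) := by
      intro p hp
      rw [hF, mem_filter, mem_product] at hp
      obtain ⟨⟨h1, h2⟩, h3⟩ := hp
      rw [pow_zero, one_mul, zero_add] at h3
      obtain ⟨u, hu, y, hy, e⟩ := mem_comp_succ.mp h1
      obtain ⟨u', hu', y', hy', e'⟩ := mem_comp_succ.mp h2
      rw [mem_biUnion]
      refine ⟨(u, u'), ?_, ?_⟩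
      · rw [hA, mem_filter, mem_product]
        refine ⟨⟨hu, hu'⟩, ?_⟩
        have h4 := h3.of_dvd (pow_dvd_pow 2 (show l ≤ (n + 1) * l by nlinarith))
        rw [← e, ← e'] at h4
        have hz : ∀ t, 2 ^ l * t ≡ 0 [MOD 2 ^ l] := fun t =>
          Nat.modEq_zero_iff_dvd.mpr (Dvd.intro _ rfl)
        have h5 := ((Nat.ModEq.refl u).add (hz y)).add ((Nat.ModEq.refl u').add (hz y'))
        rw [add_zero, add_zero] at h5
        exact h5.symm.trans h4
      · rw [mem_image]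
        refine ⟨(y, y'), ?_, ?_⟩
        · rw [mem_filter, mem_product]
          refine ⟨⟨hy, hy'⟩, ?_⟩
          dsimp only
          rw [e, e']
          exact h3
        · exact Prod.ext e e'
    refine (card_le_card hsub).trans (card_biUnion_le.trans ?_)
    have hb : ∀ t ∈ A, ((((comp S l n ×ˢ comp S l n).filter
        (fun q => (t.1 + 2 ^ l * q.1) + (t.2 + 2 ^ l * q.2) ≡ r [MOD 2 ^ ((n + 1) * l)])).image
        (fun q => (t.1 + 2 ^ l * q.1, t.2 + 2 ^ l * q.2)))).card ≤ B ^ n := by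
      intro t _
      refine card_image_le.trans ?_
      rcases ((comp S l n ×ˢ comp S l n).filter
        (fun q => (t.1 + 2 ^ l * q.1) + (t.2 + 2 ^ l * q.2) ≡ r
          [MOD 2 ^ ((n + 1) * l)])).eq_empty_or_nonempty with h0 | ⟨q0, hq0⟩
      · rw [h0]; simp
      refine le_trans (card_le_card ?_) (ih (q0.1 + q0.2))
      intro q hq
      rw [mem_filter] at hq hq0 ⊢
      refine ⟨hq.1, ?_⟩
      have h1 := hq.2.trans hq0.2.symm
      have e : ∀ q : ℕ × ℕ, (t.1 + 2 ^ l * q.1) + (t.2 + 2 ^ l * q.2) =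
        2 ^ l * (q.1 + q.2) + (t.1 + t.2) := by intro q; ring
      rw [e, e] at h1
      have h2 := Nat.ModEq.add_right_cancel' _ h1
      have h3 : 2 ^ ((n + 1) * l) = 2 ^ l * 2 ^ (n * l) := by rw [← pow_add]; congr 1; ring
      rw [h3] at h2
      have h4 := Nat.ModEq.mul_left_cancel' (by positivity) h2
      rw [pow_zero, one_mul, zero_add]
      exact h4
    refine (sum_le_sum hb).trans ?_
    rw [sum_const, smul_eq_mul, pow_succ, mul_comm]
    exact Nat.mul_le_mul_left _ (hB r)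

/-- concatenations against the cell number `j` -/
lemma comp_cell {l B : ℕ} {S : Finset ℕ} (hS : ∀ x ∈ S, x < 2 ^ l) (hB : SumB l S S B) :
    ∀ (j n : ℕ), SumJ (j * l) l (comp S l (n + 1 + j)) S (B * S.card ^ n)
  | 0, n => by
    classical
    intro r
    set F := (comp S l (n + 1 + 0) ×ˢ S).filter
      (fun p => p.1 + 2 ^ (0 * l) * p.2 ≡ r [MOD 2 ^ (0 * l + l)]) with hF
    set A := (S ×ˢ S).filter (fun t => t.1 + t.2 ≡ r [MOD 2 ^ l]) with hA
    have hsub : F ⊆ (A ×ˢ comp S l n).image (fun q => (q.1.1 + 2 ^ l * q.2, q.1.2)) := by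
      intro p hp
      rw [hF, mem_filter, mem_product, add_zero] at hp
      obtain ⟨⟨h1, h2⟩, h3⟩ := hp
      rw [zero_mul, pow_zero, one_mul, zero_add] at h3
      obtain ⟨u, hu, y, hy, e⟩ := mem_comp_succ.mp h1
      rw [mem_image]
      refine ⟨((u, p.2), y), ?_, Prod.ext e rfl⟩
      rw [mem_product]
      refine ⟨?_, hy⟩
      rw [hA, mem_filter, mem_product]
      refine ⟨⟨hu, h2⟩, ?_⟩
      dsimp only
      rw [← e] at h3
      have hz : 2 ^ l * y ≡ 0 [MOD 2 ^ l] := Nat.modEq_zero_iff_dvd.mpr (Dvd.intro _ rfl)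
      have h5 := ((Nat.ModEq.refl u).add hz).add (Nat.ModEq.refl p.2)
      rw [add_zero] at h5
      exact h5.symm.trans h3
    refine (card_le_card hsub).trans (card_image_le.trans ?_)
    rw [card_product]
    exact Nat.mul_le_mul (hB r) (comp_card_le l S n)
  | j + 1, n => by
    classical
    intro r
    have ih := comp_cell hS hB j n
    have hn : n + 1 + (j + 1) = (n + 1 + j) + 1 := by ring
    rw [hn]
    set F := (comp S l ((n + 1 + j) + 1) ×ˢ S).filter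
      (fun p => p.1 + 2 ^ ((j + 1) * l) * p.2 ≡ r [MOD 2 ^ ((j + 1) * l + l)]) with hF
    rcases F.eq_empty_or_nonempty with h0 | ⟨p0, hp0⟩
    · rw [h0]; simp
    have hz : ∀ t, 2 ^ l * t ≡ 0 [MOD 2 ^ l] := fun t =>
      Nat.modEq_zero_iff_dvd.mpr (Dvd.intro _ rfl)
    have hpow : 2 ^ ((j + 1) * l) = 2 ^ l * 2 ^ (j * l) := by rw [← pow_add]; congr 1; ring
    have hpow2 : 2 ^ ((j + 1) * l + l) = 2 ^ l * 2 ^ (j * l + l) := by
      rw [← pow_add]; congr 1; ring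
    rw [hF, mem_filter, mem_product] at hp0
    obtain ⟨⟨h1, h2⟩, h3⟩ := hp0
    obtain ⟨u0, hu0, y0, hy0, e0⟩ := mem_comp_succ.mp h1
    have hdet : ∀ p ∈ F, ∃ y ∈ comp S l (n + 1 + j), u0 + 2 ^ l * y = p.1 ∧
        y + 2 ^ (j * l) * p.2 ≡ y0 + 2 ^ (j * l) * p0.2 [MOD 2 ^ (j * l + l)] := by
      intro p hp
      rw [hF, mem_filter, mem_product] at hp
      obtain ⟨⟨g1, g2⟩, g3⟩ := hp
      obtain ⟨u, hu, y, hy, e⟩ := mem_comp_succ.mp g1
      have g4 := g3.trans h3.symm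
      rw [← e, ← e0, hpow] at g4
      have g5 := g4.of_dvd (show 2 ^ l ∣ 2 ^ ((j + 1) * l + l) from
        pow_dvd_pow 2 (Nat.le_add_left _ _))
      have g6 : ∀ u y w, u + 2 ^ l * y + 2 ^ l * 2 ^ (j * l) * w ≡ u [MOD 2 ^ l] := by
        intro u y w
        have := ((Nat.ModEq.refl u).add (hz y)).add (hz (2 ^ (j * l) * w))
        rw [← mul_assoc] at this
        simpa using this
      have g7 : u = u0 := ((g6 u y p.2).symm.trans (g5.trans (g6 u0 y0 p0.2))).eq_of_lt_of_lt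
        (hS u hu) (hS u0 hu0)
      subst g7
      refine ⟨y, hy, e, ?_⟩
      have g8 : ∀ y w, u + 2 ^ l * y + 2 ^ l * 2 ^ (j * l) * w =
        2 ^ l * (y + 2 ^ (j * l) * w) + u := by intro y w; ring
      rw [g8, g8, hpow2] at g4
      exact Nat.ModEq.mul_left_cancel' (by positivity) (Nat.ModEq.add_right_cancel' _ g4)
    choose! y hy e hmod using hdet
    refine le_trans (Finset.card_le_card_of_injOn (fun p => (y p, p.2)) (fun p hp => ?_) ?_)
      (ih (y0 + 2 ^ (j * l) * p0.2))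
    · rw [mem_coe] at hp ⊢
      rw [mem_filter, mem_product]
      have hp2 := hp
      rw [hF, mem_filter, mem_product] at hp2
      exact ⟨⟨hy p hp, hp2.1.2⟩, hmod p hp⟩
    · intro p hp q hq he
      rw [mem_coe] at hp hq
      simp only [Prod.mk.injEq] at he
      refine Prod.ext ?_ he.2
      rw [← e p hp, ← e q hq, he.1]

end Pool.Agent.Helper86.E2
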