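import Mathlib
import Pool.Agent.Helper86.E2.FarBase

/-!
# E-T (MP_12a1af_nt), phase 2: far pairs with a cell of the top zone, counts and numbers

`far_in`: the cell of `K'` is inside the cell of `K`.
`far_left`, `far_right`: the trivial bounds (disjoint zones, `R` types, older cells).
`MergeCodes l n S T Th B`: a cell of length `n * l` which is first `n` cells of length `l` (contents
`S`), then one region with the same contents (`comp S l n`), then `T`, then `Th`.
Used with `(S, T, Th) = (Sid, T1_e, Theta1_e)` and `(Theta1_e, T_e, Theta_e)`.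
-/

set_option autoImplicit false

open Finset

namespace Pool.Agent.Helper86.E2

open Pool.Agent.ETS
open Pool.Agent.ETP (phiV)
open Pool.Agent.Helper5.ETP
open Pool.Agent.E2 (comp)

/-! ### numbers -/

lemma num_le {C g K K' al al' B M : ℕ} (hC : 1 ≤ C) (hK : K' + g ≤ K) (h : al ≤ K') (h1 : al' ≤ al)
    (hM : M ≤ 2 ^ (g / 4)) (hg : 8 ≤ g) (hB : B ≤ M * 2 ^ ((al - al' + 1) / 2)) :
    (B : ℝ) * phiV K K' al al' ≤ (1/2) ^ (g / (8 * C)) := by
  refine le_trans (mul_le_mul_of_nonneg_right ?_ (phiV_nonneg _ _ _ _))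
    (num_PP (al := al) (al' := al') hC hK h (h1.trans h) hM hg)
  have e : al - al' + (al' - al) + 1 = al - al' + 1 := by omega
  rw [e]
  exact_mod_cast hB

/-- **the cell of `K'` is inside the cell of `K`** -/
theorem far_in {C g K K' s l j l' M M' B : ℕ} {X X' : Finset ℕ} {P P' : Zone → Prop}
    (hC : 1 ≤ C) (hK : K' + g ≤ K) (hg : 8 ≤ g) (hs : s + l ≤ K') (hj : j + l' ≤ l)
    (hP : ∀ Z, P Z → CellU s l X M Z) (hP' : ∀ Z, P' Z → CellU (s + j) l' X' M' Z)
    (hX : SumJ j l' X X' (B * 2 ^ ((l - (j + l')) / 2))) (hB : M * M' * B ≤ 2 ^ (g / 4)) :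
    FarB (g / (8 * C)) K K' (s + l) (s + j + l') P P' := by
  refine ⟨M * M' * (B * 2 ^ ((l - (j + l')) / 2)), ?_, ?_⟩
  · intro n Z Z' hZ hZ'
    exact cellU_in (hP Z hZ) (hP' Z' hZ') hj (by omega) (by omega) hX
  · refine num_le (M := 2 ^ (g / 4)) hC hK hs (by omega) le_rfl hg ?_
    rw [← mul_assoc]
    refine Nat.mul_le_mul hB (Nat.pow_le_pow_right (by norm_num) ?_)
    omega

/-- **trivial bound**, the top of the zone of `K` is the larger one: disjoint zones
(`al' ≤ lo`), `R` types, older cells -/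
theorem far_left {C g K K' al al' lo M : ℕ} {P P' : Zone → Prop} (hC : 5 ≤ C) (hK : K' + g ≤ K)
    (h : al ≤ K') (h1 : al' ≤ al) (hM : M ≤ 2 ^ (g / (4 * C)))
    (hx : (10 * C + 9) * (al' - lo) ≤ 10 * C * (K - K'))
    (hP : ∀ Z, P Z → Z.top = al ∧ Z.S.card ≤ M * 2 ^ ((al - lo) / 2))
    (hP' : ∀ Z, P' Z → Zone.Ok Z ∧ Z.top = al') : FarB (g / (8 * C)) K K' al al' P P' := by
  refine ⟨M * 2 ^ ((al - lo) / 2), ?_, ?_⟩
  · intro n Z Z' hZ hZ'
    obtain ⟨t1, t2⟩ := hP Z hZ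
    obtain ⟨ok', t3⟩ := hP' Z' hZ'
    exact (zcons_le_left ok' (by omega) (by omega) (by omega)).trans t2
  · refine num_main hC hK hM hx ?_ (phiV_eq_of_le (by omega) h (h1.trans h))
    have e1 : ((((al - lo) / 2 : ℕ)) : ℝ) ≤ ((al - al' : ℕ) : ℝ) / 2 + ((al' - lo : ℕ) : ℝ) / 2 := by
      have h2 : ((al - lo) / 2) * 2 ≤ (al - al') + (al' - lo) := by omega
      have h3 : ((((al - lo) / 2) * 2 : ℕ) : ℝ) ≤ (((al - al') + (al' - lo) : ℕ) : ℝ) := by
        exact_mod_cast h2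
      push_cast at h3 ⊢
      linarith
    have e2 : ((al - al' : ℕ) : ℝ) = (al : ℝ) - al' := by push_cast [Nat.cast_sub h1]; ring
    have e3 : |(al : ℝ) - al'| = (al : ℝ) - al' := by
      rw [abs_of_nonneg]
      have : (al' : ℝ) ≤ al := by exact_mod_cast h1
      linarith
    rw [e3]
    rw [e2] at e1
    linarith

/-- **trivial bound**, the top of the zone of `K'` is the larger one -/
theorem far_right {C g K K' al al' lo M : ℕ} {P P' : Zone → Prop} (hC : 5 ≤ C) (hK : K' + g ≤ K)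
    (h : al' ≤ K') (h1 : al ≤ al') (hM : M ≤ 2 ^ (g / (4 * C)))
    (hx : (10 * C + 9) * (al - lo) ≤ 10 * C * (K - K'))
    (hP : ∀ Z, P Z → Zone.Ok Z ∧ Z.top = al)
    (hP' : ∀ Z, P' Z → Z.top = al' ∧ Z.S.card ≤ M * 2 ^ ((al' - lo) / 2)) :
    FarB (g / (8 * C)) K K' al al' P P' := by
  refine ⟨M * 2 ^ ((al' - lo) / 2), ?_, ?_⟩
  · intro n Z Z' hZ hZ'
    obtain ⟨ok, t1⟩ := hP Z hZ
    obtain ⟨t3, t2⟩ := hP' Z' hZ'
    exact (zcons_le_right ok (by omega) (by omega) (by omega)).trans t2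
  · refine num_main hC hK hM hx ?_ (phiV_eq_of_le (by omega) (h1.trans h) h)
    have e1 : ((((al' - lo) / 2 : ℕ)) : ℝ) ≤ ((al' - al : ℕ) : ℝ) / 2 + ((al - lo : ℕ) : ℝ) / 2 := by
      have h2 : ((al' - lo) / 2) * 2 ≤ (al' - al) + (al - lo) := by omega
      have h3 : ((((al' - lo) / 2) * 2 : ℕ) : ℝ) ≤ (((al' - al) + (al - lo) : ℕ) : ℝ) := by
        exact_mod_cast h2
      push_cast at h3 ⊢
      linarith
    have e2 : ((al' - al : ℕ) : ℝ) = (al' : ℝ) - al := by push_cast [Nat.cast_sub h1]; ring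
    have e3 : |(al : ℝ) - al'| = (al' : ℝ) - al := by
      rw [abs_of_nonpos]
      · ring
      · have : (al : ℝ) ≤ al' := by exact_mod_cast h1
        linarith
    rw [e3]
    rw [e2] at e1
    linarith

/-! ### codes of a merge -/

/-- the codes of a merge of `n` cells of length `l` -/
structure MergeCodes (l n : ℕ) (S T Th : Finset ℕ) (B : ℕ) : Prop where
  n2 : 2 ≤ n
  el : 2 ∣ l
  B8 : 8 ≤ B
  S_lt : ∀ x ∈ S, x < 2 ^ l
  S_card : S.card ≤ 2 ^ (l / 2)
  SS : SumB l S S 8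
  T_lt : ∀ x ∈ T, x < 2 ^ (n * l)
  T_card : T.card ≤ 2 ^ (n * l / 2)
  TT : SumB (n * l) T T B
  TC : SumB (n * l) T (comp S l n) B
  T_low : ∀ j, LowB j T (B * 2 ^ (n * l / 2 - j))
  Th_lt : ∀ x ∈ Th, x < 2 ^ (n * l)
  Th_card : Th.card ≤ 2 ^ (n * l / 2)
  ThTh : SumB (n * l) Th Th B
  ThT : SumB (n * l) Th T B
  ThC : SumB (n * l) Th (comp S l n) B
  Th_low : ∀ j, LowB j Th (B * 2 ^ (n * l / 2 - j))

/-- contents of the merged cell in the state `k`: composite, `T`, `Th` -/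
def stX (l n : ℕ) (S T Th : Finset ℕ) : ℕ → Finset ℕ
  | 1 => comp S l n
  | 2 => T
  | _ => Th

section

variable {l n B : ℕ} {S T Th : Finset ℕ}

lemma MergeCodes.st_card (h : MergeCodes l n S T Th B) (k : ℕ) :
    (stX l n S T Th k).card ≤ 2 ^ (n * l / 2) := by
  unfold stX
  split
  · refine (comp_card_le l S n).trans ((Nat.pow_le_pow_left h.S_card n).trans ?_)
    rw [← pow_mul]
    refine Nat.pow_le_pow_right (by norm_num) ?_
    obtain ⟨m, hm⟩ := h.el
    have e1 : l / 2 = m := by omega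
    have e2 : n * l / 2 = n * m := by
      rw [hm]
      have : n * (2 * m) = 2 * (n * m) := by ring
      omega
    rw [e1, e2, mul_comm]
  · exact h.T_card
  · exact h.Th_card

/-- **whole cell against whole cell**, states `k' ≤ k` -/
theorem MergeCodes.whole (h : MergeCodes l n S T Th B) {k k' : ℕ} (hk' : 1 ≤ k') (hkk : k' ≤ k)
    (hk : k ≤ 3) : SumJ 0 (n * l) (stX l n S T Th k) (stX l n S T Th k') (B * 8 ^ n) := by
  have hB : B ≤ B * 8 ^ n := Nat.le_mul_of_pos_right _ (by positivity)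
  have hB2 : 8 ^ n ≤ B * 8 ^ n := Nat.le_mul_of_pos_left _ (by have := h.B8; omega)
  interval_cases k <;> interval_cases k'
  · exact (comp_comp h.S_lt h.SS n).mono hB2
  · exact (sumJ_zero h.TC).mono hB
  · exact (sumJ_zero h.TT).mono hB
  · exact (sumJ_zero h.ThC).mono hB
  · exact (sumJ_zero h.ThT).mono hB
  · exact (sumJ_zero h.ThTh).mono hB

/-- counts in residue classes give the bound against one small cell -/
lemma base_of_low (h : MergeCodes l n S T Th B) {X : Finset ℕ}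
    (hX : ∀ j, LowB j X (B * 2 ^ (n * l / 2 - j))) {j : ℕ} (hj : j < n) :
    SumJ (j * l) l X S (B * 2 ^ ((n * l - (j * l + l)) / 2)) := by
  have hn := h.n2
  obtain ⟨m, hm⟩ := h.el
  have hle : j * l + l ≤ n * l := by
    calc j * l + l = (j + 1) * l := by ring
      _ ≤ _ := Nat.mul_le_mul_right _ hj
  rcases Nat.eq_zero_or_pos j with rfl | hj0
  · have h1 := (sumJ_of_low' (X' := S) (hX (0 * l + l))).mono
      (B' := 2 ^ (l / 2) * (B * 2 ^ (n * l / 2 - (0 * l + l)))) (Nat.mul_le_mul_right _ h.S_card)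
    refine h1.mono (le_of_eq ?_)
    have h2 : 2 * l ≤ n * l := Nat.mul_le_mul_right _ hn
    have e : l / 2 + (n * l / 2 - (0 * l + l)) = (n * l - (0 * l + l)) / 2 := by omega
    calc 2 ^ (l / 2) * (B * 2 ^ (n * l / 2 - (0 * l + l)))
        = B * (2 ^ (l / 2) * 2 ^ (n * l / 2 - (0 * l + l))) := by ring
      _ = _ := by rw [← pow_add, e]
  · have h1 := sumJ_of_low (hX (j * l)) h.S_lt
    refine h1.mono (Nat.mul_le_mul_left _ (Nat.pow_le_pow_right (by norm_num) ?_))
    have h2 : l ≤ j * l := Nat.le_mul_of_pos_left _ hj0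
    omega

/-- **whole cell against one small cell** -/
theorem MergeCodes.base (h : MergeCodes l n S T Th B) {k : ℕ} (hk1 : 1 ≤ k) (hk : k ≤ 3) {j : ℕ}
    (hj : j < n) :
    SumJ (j * l) l (stX l n S T Th k) S (B * 2 ^ ((n * l - (j * l + l)) / 2)) := by
  interval_cases k
  · obtain ⟨i, hi⟩ : ∃ i, n = i + 1 + j := ⟨n - 1 - j, by omega⟩
    have h1 := comp_cell h.S_lt h.SS j i
    rw [← hi] at h1
    refine h1.mono ?_
    obtain ⟨m, hm⟩ := h.el
    have e1 : S.card ^ i ≤ 2 ^ ((n * l - (j * l + l)) / 2) := by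
      refine (Nat.pow_le_pow_left h.S_card i).trans ?_
      rw [← pow_mul]
      refine Nat.pow_le_pow_right (by norm_num) ?_
      have e2 : n * l = i * l + (j * l + l) := by rw [hi]; ring
      have e3 : i * l = 2 * (i * m) := by rw [hm]; ring
      have e4 : l / 2 * i = i * m := by
        have : l / 2 = m := by omega
        rw [this, mul_comm]
      omega
    exact Nat.mul_le_mul h.B8 e1
  · exact base_of_low h h.T_low hj
  · exact base_of_low h h.Th_low hj

/-- **far pairs of one cell, both merged** (states `k' ≤ k`) -/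
theorem MergeCodes.far_whole (h : MergeCodes l n S T Th B) {C g K K' s M M' k k' : ℕ}
    {P P' : Zone → Prop} (hC : 1 ≤ C) (hK : K' + g ≤ K) (hg : 8 ≤ g) (hs : s + n * l ≤ K')
    (hP : ∀ Z, P Z → CellU s (n * l) (stX l n S T Th k) M Z)
    (hP' : ∀ Z, P' Z → CellU s (n * l) (stX l n S T Th k') M' Z) (hk' : 1 ≤ k') (hkk : k' ≤ k)
    (hk : k ≤ 3) (hB : M * M' * (B * 8 ^ n) ≤ 2 ^ (g / 4)) :
    FarB (g / (8 * C)) K K' (s + n * l) (s + n * l) P P' := by
  refine far_in (j := 0) (l' := n * l) (B := B * 8 ^ n) hC hK hg hs (by omega) hP hP' ?_ hB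
  refine (h.whole hk' hkk hk).mono ?_
  exact Nat.le_mul_of_pos_right _ (by positivity)

/-- **far pairs of one cell, merged at `K` only** -/
theorem MergeCodes.far_base (h : MergeCodes l n S T Th B) {C g K K' s M M' k j : ℕ}
    {P P' : Zone → Prop} (hC : 1 ≤ C) (hK : K' + g ≤ K) (hg : 8 ≤ g) (hs : s + n * l ≤ K')
    (hP : ∀ Z, P Z → CellU s (n * l) (stX l n S T Th k) M Z)
    (hP' : ∀ Z, P' Z → CellU (s + j * l) l S M' Z) (hj : j < n) (hk1 : 1 ≤ k)
    (hk : k ≤ 3) (hB : M * M' * B ≤ 2 ^ (g / 4)) :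
    FarB (g / (8 * C)) K K' (s + n * l) (s + j * l + l) P P' := by
  refine far_in (B := B) hC hK hg hs ?_ hP hP' (h.base hk1 hk hj) hB
  calc j * l + l = (j + 1) * l := by ring
    _ ≤ _ := Nat.mul_le_mul_right _ hj

/-- **far pairs of one small cell, not merged** -/
theorem MergeCodes.far_cell (h : MergeCodes l n S T Th B) {C g K K' s M M' : ℕ}
    {P P' : Zone → Prop} (hC : 1 ≤ C) (hK : K' + g ≤ K) (hg : 8 ≤ g) (hs : s + l ≤ K')
    (hP : ∀ Z, P Z → CellU s l S M Z) (hP' : ∀ Z, P' Z → CellU s l S M' Z)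
    (hB : M * M' * B ≤ 2 ^ (g / 4)) :
    FarB (g / (8 * C)) K K' (s + l) (s + l) P P' := by
  refine far_in (j := 0) (l' := l) (B := B) hC hK hg hs (by omega) hP hP' ?_ hB
  refine (sumJ_zero h.SS).mono ?_
  exact h.B8.trans (Nat.le_mul_of_pos_right _ (by positivity))

/-- **far pairs of one merged cell at `K` with anything inside it at `K'`**, the two scales being
at least `(1 + 9/(10 C)) n l` apart -/
theorem MergeCodes.far_old (h : MergeCodes l n S T Th B) {C g K K' s al' M k : ℕ}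
    {P P' : Zone → Prop} (hC : 5 ≤ C) (hK : K' + g ≤ K) (hs : s + n * l ≤ K')
    (hP : ∀ Z, P Z → CellU s (n * l) (stX l n S T Th k) M Z)
    (hP' : ∀ Z, P' Z → Zone.Ok Z ∧ Z.top = al') (h1 : al' ≤ s + n * l)
    (hx : (10 * C + 9) * (al' - s) ≤ 10 * C * (K - K'))
    (hM : M ≤ 2 ^ (g / (4 * C))) :
    FarB (g / (8 * C)) K K' (s + n * l) al' P P' := by
  refine far_left hC hK hs h1 hM hx (fun Z hZ => ⟨(hP Z hZ).top, ?_⟩) hP'
  refine (hP Z hZ).card_le.trans (Nat.mul_le_mul_left _ ?_)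
  have e : s + n * l - s = n * l := by omega
  rw [e]
  exact h.st_card k

end

end Pool.Agent.Helper86.E2
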