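import Mathlib
import Pool.Agent.Helper86.E2.Top2
import Pool.Agent.Helper86.E2.Zone2

/-!
# E-T (MP_12a1af_nt), phase 2: far pairs inside the top zone

`far_unit`: a merged unit (states `1` composite, `2` block `T`, `3` newborn cell) at `K` against
anything in it at `K'`.  `far_block`: the same for a mid block.  `far_top_top`: all pairs.
-/

set_option autoImplicit false

open Finset

namespace Pool.Agent.Helper86.E2

open Pool.Agent.ETS
open Pool.Agent.ETS.RC (RBase)
open Pool.Agent.Helper5.ETP (Zone.Ok)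
open Pool.Agent.E2 (comp Rg Reg2 Codes2 Top OccT isPT2 isPT)
open Pool.Agent.Helper29.ETK (CC lg gl sl kk Gq Tq CC_pos CC_ge one_lt_CC pow_pos' pow_le pow_dvd'
  lg_le lt_lg lg_mono lg_eq le_lg lg_lt Gq_pos kk_le le_two_kk)
open Pool.Agent.Helper29.E2 (ep epo un mb sb Wd Hd Ld hh ll tU tB wb zb gth ep_mono epo_mono un_le
  lt_un Wd_un un_un un_eq_iff Wd_pos)

variable {c : ℕ}

/-- the codes of the top zone in the epoch `e` -/
structure TopCodes (c : ℕ) (D : Codes2) (e B : ℕ) : Prop where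
  W : D.W e = CC c ^ e
  H : D.H e = hh c e
  L : D.L e = ll c e
  R : RBase D.toCodes e
  m1 : MergeCodes (ll c e) (hh c e / ll c e) (D.Sd (ll c e)) (D.T1 e) (D.Th1 e) B
  m2 : MergeCodes (hh c e) (CC c ^ e / hh c e) (D.Th1 e) (D.T e) (D.Th e) B

/-- the numbers of the top zone in the epoch `e`, `g` the far threshold -/
structure TopNum (c g e B : ℕ) : Prop where
  n1 : B * 8 ^ (hh c e / ll c e) ≤ 2 ^ (g / (4 * CC c))
  n2 : B * 8 ^ (CC c ^ e / hh c e) ≤ 2 ^ (g / (4 * CC c))

/-! ### positions -/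

lemma hh_mul (hc : 10 ≤ c) {e : ℕ} (he : E0 c ≤ e) : CC c ^ e / hh c e * hh c e = CC c ^ e :=
  Nat.div_mul_cancel ((mid_grid hc).dvd e he)

lemma ll_mul (hc : 10 ≤ c) {e : ℕ} (he : E0 c ≤ e) : hh c e / ll c e * ll c e = hh c e :=
  Nat.div_mul_cancel (ll_dvd_hh hc he)

/-- number of a mid block in its unit -/
lemma mb_index (hc : 10 ≤ c) {s : ℕ} (he : E0 c ≤ ep c s) :
    ∃ j < CC c ^ ep c s / hh c (ep c s), mb c s = un c s + j * hh c (ep c s) := by
  have h1 := un_le_mb hc he
  have h2 := mb_add_le hc he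
  have hpos := (mid_grid hc).pos (ep c s)
  have d1 : hh c (ep c s) ∣ mb c s := dvd_gb (hh c) c s
  have d2 : hh c (ep c s) ∣ un c s :=
    ((mid_grid hc).dvd _ he).trans (Helper29.E2.Wd_dvd_un c s)
  have d3 := Nat.dvd_sub d1 d2
  obtain ⟨j, hj⟩ := d3
  refine ⟨j, ?_, ?_⟩
  · have e1 : (j + 1) * hh c (ep c s) ≤ CC c ^ ep c s := by
      have : Hd c s = hh c (ep c s) := rfl
      have : Wd c s = CC c ^ ep c s := rfl
      rw [add_mul, one_mul, mul_comm j, ← hj]
      omega
    exact (Nat.le_div_iff_mul_le hpos).mpr e1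
  · rw [mul_comm j, ← hj]
    omega

/-- number of a small cell in its mid block -/
lemma sb_index (hc : 10 ≤ c) {s : ℕ} (he : E0 c ≤ ep c s) :
    ∃ j < hh c (ep c s) / ll c (ep c s), sb c s = mb c s + j * ll c (ep c s) := by
  have h1 := mb_le_sb hc he
  have h2 := sb_add_le hc he
  have hpos := (small_grid hc).pos (ep c s)
  have d1 : ll c (ep c s) ∣ sb c s := dvd_gb (ll c) c s
  have d2 : ll c (ep c s) ∣ mb c s := (ll_dvd_hh hc he).trans (dvd_gb (hh c) c s)
  have d3 := Nat.dvd_sub d1 d2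
  obtain ⟨j, hj⟩ := d3
  refine ⟨j, ?_, ?_⟩
  · have e1 : (j + 1) * ll c (ep c s) ≤ hh c (ep c s) := by
      have : Hd c s = hh c (ep c s) := rfl
      have : Ld c s = ll c (ep c s) := rfl
      rw [add_mul, one_mul, mul_comm j, ← hj]
      omega
    exact (Nat.le_div_iff_mul_le hpos).mpr e1
  · rw [mul_comm j, ← hj]
    omega

/-- a merged unit and a mid block in it which was not merged: far apart -/
lemma dist_unit (hc : 10 ≤ c) {b f K K' : ℕ} (he : E0 c ≤ ep c f) (hu : un c f = b)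
    (hf : mb c f = f) (h1 : tU c 1 b ≤ K) (h2 : K' < tB c 3 f) :
    (10 * CC c + 9) * Wd c b ≤ 10 * CC c * (K - K') := by
  have hC := CC_ge hc
  have e1 := un_le_mb hc he
  have e2 := mb_add_le hc he
  rw [hf, hu] at e1 e2
  have e3 : Wd c f = Wd c b := by rw [← hu, Wd_un hc]
  have e4 : 2 ^ 14 * Hd c f ≤ Wd c f := hh_le_Wd hc he
  have e5 : Gq c (epo c (f + 3 * Hd c f)) ≤ Gq c (epo c (b + 3 * Wd c b)) := by
    refine Gq_mono' hc (epo_mono ?_)
    have : Hd c f ≤ 2 ^ 14 * Hd c f := Nat.le_mul_of_pos_left _ (by norm_num)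
    omega
  unfold tU at h1
  unfold tB at h2
  have e6 : 3 * Wd c b ≤ 2 * (K - K') := by omega
  have e7 : 10 * CC c + 9 ≤ 15 * CC c := by omega
  calc (10 * CC c + 9) * Wd c b ≤ 15 * CC c * Wd c b := Nat.mul_le_mul_right _ e7
    _ = 5 * CC c * (3 * Wd c b) := by ring
    _ ≤ 5 * CC c * (2 * (K - K')) := Nat.mul_le_mul_left _ e6
    _ = _ := by ring

/-! ### zones of the top zone -/

/-- contents of the regions of the top zone -/
def topX (c : ℕ) (D : Codes2) : Top → Finset ℕ
  | .T2 b => D.T (ep c b)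
  | .C2 b => comp (D.Th1 (ep c b)) (hh c (ep c b)) (CC c ^ ep c b / hh c (ep c b))
  | .mid f => D.Th1 (ep c f)
  | .T1 f => D.T1 (ep c f)
  | .C1 f => comp (D.Sd (ll c (ep c f))) (ll c (ep c f)) (hh c (ep c f) / ll c (ep c f))
  | .cell p => D.Sd (ll c (ep c p))

lemma cellU_top {D : Codes2} {B : ℕ} {d : Top} (hD : TopCodes c D (ep c d.lo) B) {r0 : Reg2}
    (h0 : ¬ isPT2 r0) {Z : Zone} (hZ : ZoneOf2 D r0 (d.reg c) Z) :
    CellU d.lo (d.len c) (topX c D d) 1 Z := by
  have h0' : ∀ p e f b, r0 ≠ .old (.PT p e f b) := by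
    rintro p e f b rfl
    exact h0 trivial
  have key : ∀ s l X, Reg2.data D (d.reg c) = some (s, l, X) → (s, l, X) =
      (d.lo, d.len c, topX c D d) → CellU d.lo (d.len c) (topX c D d) 1 Z := by
    intro s l X hd he
    simp only [Prod.mk.injEq] at he
    obtain ⟨rfl, rfl, rfl⟩ := he
    refine cellU_of_data ?_ hd h0' hZ
    intro e b v hr
    cases d with
    | T2 b' =>
      simp only [Top.reg] at hr
      rcases hr with hr | hr
      · simp only [Reg2.old.injEq, Reg.RT.injEq] at hr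
        rw [← hr.1]; exact hD.R
      · simp at hr
    | C2 => simp [Top.reg] at hr
    | mid => simp [Top.reg] at hr
    | T1 => simp [Top.reg] at hr
    | C1 => simp [Top.reg] at hr
    | cell => simp [Top.reg] at hr
  cases d with
  | T2 b =>
    have hW : D.W (ep c b) = CC c ^ ep c b := hD.W
    refine key b (D.W (ep c b)) (D.T (ep c b)) ?_ ?_
    · simp only [Top.reg, Reg2.data]
      rw [if_pos]
      rw [hW]; rfl
    · rw [hW]; rfl
  | C2 b =>
    have hW : D.W (ep c b) = CC c ^ ep c b := hD.W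
    have hH : D.H (ep c b) = hh c (ep c b) := hD.H
    refine key b (D.W (ep c b)) _ rfl ?_
    rw [hW, hH]; rfl
  | mid f =>
    have hH : D.H (ep c f) = hh c (ep c f) := hD.H
    refine key f (D.H (ep c f)) _ rfl ?_
    rw [hH]; rfl
  | T1 f =>
    have hH : D.H (ep c f) = hh c (ep c f) := hD.H
    refine key f (D.H (ep c f)) _ rfl ?_
    rw [hH]; rfl
  | C1 f =>
    have hH : D.H (ep c f) = hh c (ep c f) := hD.H
    have hL : D.L (ep c f) = ll c (ep c f) := hD.L
    refine key f (D.H (ep c f)) _ rfl ?_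
    rw [hL, hH]; rfl
  | cell p => exact key p (Ld c p) _ rfl rfl

/-! ### a merged unit and a merged mid block -/

/-- the state of a unit: `1` composite, `2` block `T`, `3` newborn cell -/
def unitX (c : ℕ) (D : Codes2) (e : ℕ) : ℕ → Finset ℕ :=
  stX (hh c e) (CC c ^ e / hh c e) (D.Th1 e) (D.T e) (D.Th e)

/-- the state of a mid block: `1` composite, `2` block `T1`, `3` mid cell -/
def blockX (c : ℕ) (D : Codes2) (e : ℕ) : ℕ → Finset ℕ :=
  stX (ll c e) (hh c e / ll c e) (D.Sd (ll c e)) (D.T1 e) (D.Th1 e)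

variable {D : Codes2} {K K' e B : ℕ} {P P' : Zone → Prop}

lemma pow_div_le {C g : ℕ} {x : ℕ} (hC : 1 ≤ C) (h : x ≤ 2 ^ (g / (4 * C))) : x ≤ 2 ^ (g / 4) :=
  h.trans (Nat.pow_le_pow_right (by norm_num) (Nat.div_le_div_left (by omega) (by norm_num)))

/-- **a merged unit at `K`, a region in it at `K'`** -/
theorem far_unit (hc : 10 ≤ c) (hD : TopCodes c D e B) (hN : TopNum c (gth c K) e B)
    (he : E0 c ≤ e) (hg8 : 8 ≤ gth c K) (hg : K' + gth c K ≤ K) {b k : ℕ} (hb : un c b = b)
    (heb : ep c b = e) (hk1 : 1 ≤ k) (hk3 : k ≤ 3) (hK1 : tU c 1 b ≤ K)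
    (hcap : b + Wd c b ≤ K')
    (hP : ∀ Z, P Z → CellU b (Wd c b) (unitX c D e k) 1 Z) {d' : Top} (ht' : E0 c ≤ epo c K')
    (hd' : OccT c K' d') (hP' : ∀ Z, P' Z → CellU d'.lo (d'.len c) (topX c D d') 1 Z)
    (hin : un c d'.lo = b) (hT : ∀ b', d' = .T2 b' → 2 ≤ k) :
    FarB (gth c K / (8 * CC c)) K K' (b + Wd c b) (d'.hi c) P P' := by
  have hC := CC_ge hc
  have hE := E0_ge hc
  subst heb
  have hWd : Wd c b = CC c ^ ep c b / hh c (ep c b) * hh c (ep c b) := (hh_mul hc he).symm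
  have hs : b + CC c ^ ep c b / hh c (ep c b) * hh c (ep c b) ≤ K' := by
    rw [← hWd]; exact hcap
  have hP2 : ∀ Z, P Z → CellU b (CC c ^ ep c b / hh c (ep c b) * hh c (ep c b))
      (stX (hh c (ep c b)) (CC c ^ ep c b / hh c (ep c b)) (D.Th1 (ep c b)) (D.T (ep c b))
        (D.Th (ep c b)) k) 1 Z := by
    intro Z hZ
    rw [← hWd]
    exact hP Z hZ
  have hn2 := pow_div_le (C := CC c) (by omega) hN.n2
  have hBn : B ≤ 2 ^ (gth c K / 4) := (Nat.le_mul_of_pos_right _ (by positivity)).trans hn2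
  obtain ⟨hat, hw, hz⟩ := hd'
  have he' : E0 c ≤ ep c d'.lo := ht'.trans (epo_le_ep hc (by omega) hw)
  have hep : ep c d'.lo = ep c b := by rw [← Helper29.E2.ep_un hc, hin]
  have hlo := un_le c d'.lo
  have hlt := lt_un c d'.lo
  rw [hin] at hlo hlt
  have hWW : Wd c d'.lo = Wd c b := by unfold Wd; rw [hep]
  have hlen := Top.len_pos hc d'
  -- the unit at both times
  have whole : ∀ k', 1 ≤ k' → k' ≤ k → d'.lo = b → d'.len c = Wd c b →
      topX c D d' = unitX c D (ep c b) k' →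
      FarB (gth c K / (8 * CC c)) K K' (b + Wd c b) (d'.hi c) P P' := by
    intro k' h1 h2 h3 h4 h5
    have hhi : d'.hi c = b + Wd c b := by unfold Top.hi; omega
    rw [hhi]
    nth_rewrite 2 [hWd]
    rw [hWd]
    refine hD.m2.far_whole (M := 1) (M' := 1) (k := k) (k' := k') (by omega) hg hg8 hs hP2 ?_ h1 h2
      hk3 (by simpa using hn2)
    intro Z hZ
    have := hP' Z hZ
    rw [h3, h4, h5, hWd] at this
    exact this
  -- old pairs
  have old : tU c 1 b ≤ K → K' < tB c 3 (mb c d'.lo) → d'.hi c ≤ b + Wd c b →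
      FarB (gth c K / (8 * CC c)) K K' (b + Wd c b) (d'.hi c) P P' := by
    intro h1 h2 h3
    have hmm := mb_mb hc he'
    have h4 := dist_unit hc (b := b) (f := mb c d'.lo) (by rw [ep_mb hc he']; exact he')
      (by rw [un_mb hc he', hin]) hmm h1 h2
    rw [hWd]
    refine hD.m2.far_old (M := 1) (k := k) (s := b) (by omega) hg hs hP2 ?_ ?_ ?_ ?_
    · intro Z hZ
      exact ⟨(hP' Z hZ).ok, (hP' Z hZ).top⟩
    · rw [← hWd]; exact h3
    · refine le_trans (Nat.mul_le_mul_left _ ?_) h4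
      omega
    · exact Nat.one_le_two_pow
  cases d' with
  | T2 b' =>
    have hbb : b' = b := by rw [← hin]; exact hat.1.symm
    subst hbb
    exact whole 2 (by norm_num) (hT _ rfl) rfl rfl rfl
  | C2 b' =>
    have hbb : b' = b := by rw [← hin]; exact hat.1.symm
    subst hbb
    exact whole 1 le_rfl hk1 rfl rfl rfl
  | mid f =>
    have hf : mb c f = f := hat.1
    obtain ⟨j, hj, hfj⟩ := mb_index hc (s := f) he'
    have hin' : un c f = b := hin
    have hep' : ep c f = ep c b := hep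
    rw [hf, hin', hep'] at hfj
    rw [hep'] at hj
    have hhi : (Top.mid f).hi c = b + j * hh c (ep c b) + hh c (ep c b) := by
      show f + Hd c f = _
      have : Hd c f = hh c (ep c b) := by unfold Hd; rw [hep']
      omega
    rw [hhi]
    rw [hWd]
    refine hD.m2.far_base (M := 1) (M' := 1) (k := k) (j := j) (by omega) hg hg8 hs hP2 ?_ hj hk1
      hk3 (by simpa using hBn)
    intro Z hZ
    have := hP' Z hZ
    have e1 : (Top.mid f).lo = b + j * hh c (ep c b) := hfj
    have e2 : (Top.mid f).len c = hh c (ep c b) := by show Hd c f = _; unfold Hd; rw [hep']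
    have e3 : topX c D (Top.mid f) = D.Th1 (ep c b) := by show D.Th1 (ep c f) = _; rw [hep']
    rw [e1, e2, e3] at this
    exact this
  | T1 f =>
    have hf : mb c f = f := hat.1
    refine old hK1 ?_ ?_
    · show K' < tB c 3 (mb c f)
      rw [hf]; exact hat.2.2.1
    · have := mb_add_le hc he'
      have e1 : mb c (Top.T1 f).lo = f := hf
      rw [e1, hin, hWW] at this
      exact this
  | C1 f =>
    have hf : mb c f = f := hat.1
    refine old hK1 ?_ ?_
    · show K' < tB c 3 (mb c f)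
      rw [hf]; exact lt_of_lt_of_le hat.2.2.1 (tB_le c (by norm_num) f)
    · have := mb_add_le hc he'
      have e1 : mb c (Top.C1 f).lo = f := hf
      rw [e1, hin, hWW] at this
      exact this
  | cell p =>
    have hp : sb c p = p := hat.1
    refine old hK1 ?_ ?_
    · show K' < tB c 3 (mb c p)
      exact lt_of_lt_of_le hat.2.1 (tB_le c (by norm_num) (mb c p))
    · have h1 := mb_add_le hc he'
      have h2 := sb_add_le hc he'
      have e1 : sb c (Top.cell p).lo = p := hp
      rw [hin, hWW] at h1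
      rw [e1] at h2
      exact h2.trans h1

/-- **a merged mid block at `K`, a region in it at `K'`** -/
theorem far_block (hc : 10 ≤ c) (hD : TopCodes c D e B) (hN : TopNum c (gth c K) e B)
    (he : E0 c ≤ e) (hg8 : 8 ≤ gth c K) (hg : K' + gth c K ≤ K) {f k : ℕ}
    (hef : ep c f = e) (hk1 : 1 ≤ k) (hk3 : k ≤ 3)
    (hKu : K < tU c 1 (un c f)) (hcap : f + Hd c f ≤ K')
    (hP : ∀ Z, P Z → CellU f (Hd c f) (blockX c D e k) 1 Z) {d' : Top} (ht' : E0 c ≤ epo c K')
    (hd' : OccT c K' d') (hP' : ∀ Z, P' Z → CellU d'.lo (d'.len c) (topX c D d') 1 Z)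
    (hin : mb c d'.lo = f) (hmid : ∀ f', d' = .mid f' → 3 ≤ k) (hT : ∀ f', d' = .T1 f' → 2 ≤ k) :
    FarB (gth c K / (8 * CC c)) K K' (f + Hd c f) (d'.hi c) P P' := by
  have hC := CC_ge hc
  have hE := E0_ge hc
  subst hef
  have hHd : Hd c f = hh c (ep c f) / ll c (ep c f) * ll c (ep c f) := (ll_mul hc he).symm
  have hs : f + hh c (ep c f) / ll c (ep c f) * ll c (ep c f) ≤ K' := by
    rw [← hHd]; exact hcap
  have hP2 : ∀ Z, P Z → CellU f (hh c (ep c f) / ll c (ep c f) * ll c (ep c f))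
      (stX (ll c (ep c f)) (hh c (ep c f) / ll c (ep c f)) (D.Sd (ll c (ep c f))) (D.T1 (ep c f))
        (D.Th1 (ep c f)) k) 1 Z := by
    intro Z hZ
    rw [← hHd]
    exact hP Z hZ
  have hn1 := pow_div_le (C := CC c) (by omega) hN.n1
  have hBn : B ≤ 2 ^ (gth c K / 4) := (Nat.le_mul_of_pos_right _ (by positivity)).trans hn1
  obtain ⟨hat, hw, hz⟩ := hd'
  have he' : E0 c ≤ ep c d'.lo := ht'.trans (epo_le_ep hc (by omega) hw)
  have hep : ep c d'.lo = ep c f := by rw [← ep_mb hc he', hin]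
  have hun : un c d'.lo = un c f := by rw [← un_mb hc he', hin]
  have hKK : K' ≤ K := by omega
  -- the block at both times
  have whole : ∀ k', 1 ≤ k' → k' ≤ k → d'.lo = f → d'.len c = Hd c f →
      topX c D d' = blockX c D (ep c f) k' →
      FarB (gth c K / (8 * CC c)) K K' (f + Hd c f) (d'.hi c) P P' := by
    intro k' h1 h2 h3 h4 h5
    have hhi : d'.hi c = f + Hd c f := by unfold Top.hi; omega
    rw [hhi, hHd]
    refine hD.m1.far_whole (M := 1) (M' := 1) (k := k) (k' := k') (by omega) hg hg8 hs hP2 ?_ h1 h2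
      hk3 (by simpa using hn1)
    intro Z hZ
    have := hP' Z hZ
    rw [h3, h4, h5, hHd] at this
    exact this
  cases d' with
  | T2 b' =>
    exfalso
    obtain ⟨h1, h2, h3⟩ := hat
    have h4 : un c f = b' := by rw [← hun]; exact h1
    have h5 := tU_le c (show 1 ≤ 2 by norm_num) b'
    rw [h4] at hKu
    omega
  | C2 b' =>
    exfalso
    obtain ⟨h1, h2, h3⟩ := hat
    have h4 : un c f = b' := by rw [← hun]; exact h1
    rw [h4] at hKu
    omega
  | mid f' =>
    have hff : f' = f := by rw [← hin]; exact hat.1.symm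
    subst hff
    exact whole 3 (by norm_num) (hmid _ rfl) rfl rfl rfl
  | T1 f' =>
    have hff : f' = f := by rw [← hin]; exact hat.1.symm
    subst hff
    exact whole 2 (by norm_num) (hT _ rfl) rfl rfl rfl
  | C1 f' =>
    have hff : f' = f := by rw [← hin]; exact hat.1.symm
    subst hff
    exact whole 1 le_rfl hk1 rfl rfl rfl
  | cell p =>
    have hp : sb c p = p := hat.1
    obtain ⟨j, hj, hpj⟩ := sb_index hc (s := p) he'
    have hin' : mb c p = f := hin
    have hep' : ep c p = ep c f := hep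
    rw [hp, hin', hep'] at hpj
    rw [hep'] at hj
    have hhi : (Top.cell p).hi c = f + j * ll c (ep c f) + ll c (ep c f) := by
      show p + Ld c p = _
      have : Ld c p = ll c (ep c f) := by unfold Ld; rw [hep']
      omega
    rw [hhi, hHd]
    refine hD.m1.far_base (M := 1) (M' := 1) (k := k) (j := j) (by omega) hg hg8 hs hP2 ?_ hj hk1
      hk3 (by simpa using hBn)
    intro Z hZ
    have := hP' Z hZ
    have e1 : (Top.cell p).lo = f + j * ll c (ep c f) := hpj
    have e2 : (Top.cell p).len c = ll c (ep c f) := by show Ld c p = _; unfold Ld; rw [hep']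
    have e3 : topX c D (Top.cell p) = D.Sd (ll c (ep c f)) := by
      show D.Sd (ll c (ep c p)) = _; rw [hep']
    rw [e1, e2, e3] at this
    exact this

/-- **a small cell at both times** -/
theorem far_small (hc : 10 ≤ c) (hD : TopCodes c D e B) (hN : TopNum c (gth c K) e B)
    (he : E0 c ≤ e) (hg8 : 8 ≤ gth c K) (hg : K' + gth c K ≤ K) {p : ℕ}
    (hep : ep c p = e) (hK : (Top.cell p).At c K) (hcap : p + Ld c p ≤ K')
    (hP : ∀ Z, P Z → CellU p (Ld c p) (D.Sd (ll c e)) 1 Z) {d' : Top} (ht' : E0 c ≤ epo c K')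
    (hd' : OccT c K' d') (hP' : ∀ Z, P' Z → CellU d'.lo (d'.len c) (topX c D d') 1 Z)
    {s : ℕ} (hs1 : p ≤ s) (hs2 : s < p + Ld c p) (hs1' : d'.lo ≤ s) (hs2' : s < d'.hi c) :
    FarB (gth c K / (8 * CC c)) K K' (p + Ld c p) (d'.hi c) P P' := by
  have hC := CC_ge hc
  have hE := E0_ge hc
  subst hep
  have hn1 := pow_div_le (C := CC c) (by omega) hN.n1
  have hBn : B ≤ 2 ^ (gth c K / 4) := (Nat.le_mul_of_pos_right _ (by positivity)).trans hn1
  obtain ⟨hp, hK1, hK2⟩ := hK
  obtain ⟨hat, hw, hz⟩ := hd'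
  have hKK : K' ≤ K := by omega
  have he' : E0 c ≤ ep c d'.lo := ht'.trans (epo_le_ep hc (by omega) hw)
  obtain ⟨hsb, heps⟩ := sb_of_mem hc he hp hs1 hs2
  have hes : E0 c ≤ ep c s := by omega
  have hmb : mb c s = mb c p := by rw [← mb_sb hc hes, hsb]
  have hun : un c s = un c p := by rw [← un_sb hc hes, hsb]
  cases d' with
  | T2 b' =>
    exfalso
    obtain ⟨h1, h2, h3⟩ := hat
    have h4 : un c s = b' := (un_of_mem hc ((by omega : 1 ≤ E0 c).trans he') h1 hs1' hs2').1
    have h5 := tU_le c (show 1 ≤ 2 by norm_num) b'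
    rw [← hun, h4] at hK2
    omega
  | C2 b' =>
    exfalso
    obtain ⟨h1, h2, h3⟩ := hat
    have h4 : un c s = b' := (un_of_mem hc ((by omega : 1 ≤ E0 c).trans he') h1 hs1' hs2').1
    rw [← hun, h4] at hK2
    omega
  | mid f' =>
    exfalso
    obtain ⟨h1, h2, h3⟩ := hat
    have h4 : mb c s = f' := (mb_of_mem hc he' h1 hs1' hs2').1
    have h5 := tB_le c (show 1 ≤ 3 by norm_num) f'
    rw [← hmb, h4] at hK1
    omega
  | T1 f' =>
    exfalso
    obtain ⟨h1, h2, h3, -⟩ := hat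
    have h4 : mb c s = f' := (mb_of_mem hc he' h1 hs1' hs2').1
    have h5 := tB_le c (show 1 ≤ 2 by norm_num) f'
    rw [← hmb, h4] at hK1
    omega
  | C1 f' =>
    exfalso
    obtain ⟨h1, h2, h3, -⟩ := hat
    have h4 : mb c s = f' := (mb_of_mem hc he' h1 hs1' hs2').1
    rw [← hmb, h4] at hK1
    omega
  | cell p' =>
    have h1 : sb c p' = p' := hat.1
    have h2 : sb c s = p' := (sb_of_mem hc he' h1 hs1' hs2').1
    have hpp : p' = p := by rw [← h2, hsb]
    subst hpp
    exact hD.m1.far_cell (M := 1) (M' := 1) (by omega) hg hg8 hcap hP hP' (by simpa using hBn)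

end Pool.Agent.Helper86.E2
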