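import Mathlib
import Pool.Agent.Helper86.E2.FarTop
import Pool.Agent.Helper86.E2.Desc2
import Pool.Agent.E2S.Above
import Pool.Agent.Helper29.E2.Sizes

/-!
# E-T (MP_12a1af_nt), phase 2: all far pairs
-/

set_option autoImplicit false

open Finset

namespace Pool.Agent.Helper86.E2

open Pool.Agent.ETS
open Pool.Agent.ETS.RC (RBase)
open Pool.Agent.ETP (phiV)
open Pool.Agent.Helper5.ETP (Zone.Ok zcons_le_left Zone.Low)
open Pool.Agent.E2 (comp Rg Reg2 Codes2 Top OccT isPT2 isPT Desc IsDesc Occ Desc2 IsDesc2 HasDesc2)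
open Pool.Agent.Helper29.ETK (CC lg gl sl kk Gq Tq CC_ge one_lt_CC pow_pos' pow_le pow_dvd'
  lg_le lt_lg lg_mono lg_eq le_lg lg_lt Gq_pos kk_le le_two_kk)
open Pool.Agent.Helper29.E2 (ep epo un mb sb Wd Hd Ld hh ll tU tB wb zb gth ep_mono epo_mono un_le
  lt_un Wd_un un_un un_eq_iff Wd_pos)
open Pool.Agent.E2S (ZFacts zfacts_desc top_desc desc_le card_le_of_sq CaseHyp FarCases4 far_old)

variable {c : ℕ} {D : Codes2} {K K' : ℕ} {P P' : Zone → Prop}

/-! ### facts on the zones of all regions below the zone -/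

/-- basic facts about a zone -/
structure ZF (Z : Zone) (lo hi : ℕ) : Prop where
  ok : Zone.Ok Z
  top : Z.top = hi
  low : ∃ r, Zone.Low Z lo r
  card : Z.S.card ≤ 2 * 2 ^ ((hi - lo) / 2)

lemma low_of_cellU {s l : ℕ} {X : Finset ℕ} {Z : Zone} (h : CellU s l X 1 Z) :
    ∃ r, Zone.Low Z s r := by
  obtain ⟨-, I, a, κ, hI, ha, h⟩ := h
  rcases I.eq_empty_or_nonempty with h0 | ⟨i0, hi0⟩
  · refine ⟨0, fun v hv => ?_⟩
    obtain ⟨i, hi, -⟩ := h v hv
    rw [h0] at hi
    exact absurd hi (notMem_empty _)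
  · refine ⟨a i0, fun v hv => ?_⟩
    obtain ⟨i, hi, x, -, rfl⟩ := h v hv
    have : i = i0 := card_le_one.mp hI i hi i0 hi0
    subst this
    rw [Nat.add_mul_mod_self_left, Nat.mod_eq_of_lt (ha i hi)]

/-- the codes of the top zones of the two times -/
structure TopHyp (c : ℕ) (D : Codes2) (K K' : ℕ) : Prop where
  big : E0 c ≤ epo c K'
  codes : ∀ e, E0 c ≤ e → e ≤ epo c K + 1 → ∃ B, TopCodes c D e B ∧ TopNum c (gth c K) e B

lemma even_half {l : ℕ} (h : 2 ∣ l) : 2 * (l / 2) = l := Nat.mul_div_cancel' h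

/-- sizes of the contents in the top zone -/
lemma card_topX {B : ℕ} {d : Top} (hc : 10 ≤ c) (he : E0 c ≤ ep c d.lo)
    (hD : TopCodes c D (ep c d.lo) B) : (topX c D d).card ≤ 2 ^ (d.len c / 2) := by
  cases d with
  | T2 b =>
    have := hD.m2.st_card 2
    rw [hh_mul hc he] at this
    exact this
  | C2 b =>
    have := hD.m2.st_card 1
    rw [hh_mul hc he] at this
    exact this
  | mid f =>
    have := hD.m1.st_card 3
    rw [ll_mul hc he] at this
    exact this
  | T1 f =>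
    have := hD.m1.st_card 2
    rw [ll_mul hc he] at this
    exact this
  | C1 f =>
    have := hD.m1.st_card 1
    rw [ll_mul hc he] at this
    exact this
  | cell p => exact hD.m1.S_card

/-- zones of the top zone -/
lemma zf_top {B : ℕ} {d : Top} (hc : 10 ≤ c) (he : E0 c ≤ ep c d.lo)
    (hD : TopCodes c D (ep c d.lo) B) {Z : Zone} (hZ : CellU d.lo (d.len c) (topX c D d) 1 Z) :
    ZF Z d.lo (d.hi c) where
  ok := hZ.ok
  top := hZ.top
  low := low_of_cellU hZ
  card := by
    have h1 := hZ.card_le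
    have h2 := card_topX hc he hD
    have h3 : d.hi c - d.lo = d.len c := by unfold Top.hi; omega
    rw [h3]
    omega

/-- top of a region of the top zone -/
lemma top_rg {B : ℕ} {d : Top} (hD : TopCodes c D (ep c d.lo) B) :
    ((d.reg c).rg D).top = d.hi c := by
  cases d with
  | T2 b => rfl
  | C2 b =>
    have h : D.W (ep c b) = CC c ^ ep c b := hD.W
    show b + D.W (ep c b) = b + Wd c b
    rw [h]; rfl
  | mid f =>
    have h : D.H (ep c f) = hh c (ep c f) := hD.H
    show f + D.H (ep c f) = f + Hd c f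
    rw [h]; rfl
  | T1 f =>
    have h : D.H (ep c f) = hh c (ep c f) := hD.H
    show f + D.H (ep c f) = f + Hd c f
    rw [h]; rfl
  | C1 f =>
    have h : D.H (ep c f) = hh c (ep c f) := hD.H
    show f + D.H (ep c f) = f + Hd c f
    rw [h]; rfl
  | cell p => rfl

lemma zoneOf2_old {q0 q1 : Reg} {Z : Zone} :
    ZoneOf2 D (.old q0) (.old q1) Z ↔ ZoneOf D.toCodes q0 q1 Z := by
  cases q0 <;> exact Iff.rfl

/-- from the merged parts -/
lemma farB_of_old {q0 q1 q0' q1' : Reg}
    (h : Pool.Agent.E2S.FarOK D.toCodes c K K' q0 q1 q0' q1') :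
    FarB (gth c K / (8 * CC c)) K K' ((Reg2.old q1).rg D).top ((Reg2.old q1').rg D).top
      (ZoneOf2 D (.old q0) (.old q1)) (ZoneOf2 D (.old q0') (.old q1')) := by
  obtain ⟨B, h1, h2⟩ := h
  refine ⟨B, fun n Z Z' hZ hZ' => h1 n Z Z' (zoneOf2_old.mp hZ) (zoneOf2_old.mp hZ'), h2⟩

/-! ### general pairs -/

/-- **(ABOVE)** -/
theorem far_above {C g al al' lo : ℕ} (hC : 1 ≤ C) (hg : 16 ≤ g) (h : K' ≤ lo) (hlo : lo ≤ al)
    (hal' : al' ≤ K') (hct : 2 * al + g ≤ 2 * K) (hP : ∀ Z, P Z → ZF Z lo al)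
    (hP' : ∀ Z, P' Z → Zone.Ok Z ∧ Z.top = al') : FarB (g / (8 * C)) K K' al al' P P' := by
  refine ⟨2, ?_, ?_⟩
  · intro n Z Z' hZ hZ'
    have f := hP Z hZ
    obtain ⟨f1, f2⟩ := hP' Z' hZ'
    obtain ⟨r, hr⟩ := f.low
    exact Pool.Agent.Helper5.ETP.above f.ok f1 hr (by rw [f.top]; exact hlo)
      (by rw [f.top]; omega) (by rw [f2]; exact hal') h
  · refine fin_le (x := 1) (by norm_num) (phiV_eq_of_cut (by omega) (by omega) hal') ?_
    have h1 : ((g / (8 * C) : ℕ) : ℝ) ≤ (g : ℝ) / 8 := by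
      have h2 : g / (8 * C) ≤ g / 8 := Nat.div_le_div_left (by omega) (by norm_num)
      calc ((g / (8 * C) : ℕ) : ℝ) ≤ ((g / 8 : ℕ) : ℝ) := by exact_mod_cast h2
        _ ≤ (g : ℝ) / 8 := by exact_mod_cast natdiv_le g 8
    have h3 : 2 * (al : ℝ) + g ≤ 2 * K := by exact_mod_cast hct
    have h4 : (al' : ℝ) ≤ K' := by exact_mod_cast hal'
    have h5 : (16 : ℝ) ≤ g := by exact_mod_cast hg
    linarith

/-- **(CUT-R)**, general -/
theorem far_cutR {C g al al' lo : ℕ} (hC : 1 ≤ C) (hg : 16 * C ≤ g) (h : K' ≤ al) (hlo : lo ≤ al)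
    (hal' : al' ≤ K') (h1 : (C + 1) * (al - lo) ≤ C * (K - al)) (h2 : al + 2 * g ≤ K)
    (hP : ∀ Z, P Z → ZF Z lo al)
    (hP' : ∀ Z, P' Z → Zone.Ok Z ∧ Z.top = al') : FarB (g / (8 * C)) K K' al al' P P' := by
  refine ⟨2 * 2 ^ ((al - lo) / 2), ?_, ?_⟩
  · intro n Z Z' hZ hZ'
    have f := hP Z hZ
    obtain ⟨f1, f2⟩ := hP' Z' hZ'
    exact (zcons_le_left f1 (by rw [f.top]; omega) (by rw [f2]; exact hal')
      (by rw [f.top, f2]; omega)).trans f.card
  · refine fin_le' (p := 1) (by norm_num) (phiV_eq_of_cut h (by omega) hal') ?_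
    have e1 : ((g / (8 * C) : ℕ) : ℝ) ≤ (g : ℝ) / (8 * C) := by
      have := natdiv_le g (8 * C); push_cast at this; exact this
    have e2 : (((al - lo) / 2 : ℕ) : ℝ) ≤ ((al - lo : ℕ) : ℝ) / 2 := by
      have := natdiv_le (al - lo) 2; push_cast at this; exact this
    have hvK : al ≤ K := by omega
    have e3 : ((C : ℝ) + 1) * ((al - lo : ℕ) : ℝ) ≤ C * ((K : ℝ) - al) := by
      have : (((C + 1) * (al - lo) : ℕ) : ℝ) ≤ ((C * (K - al) : ℕ) : ℝ) := by exact_mod_cast h1
      rw [Nat.cast_mul, Nat.cast_mul, Nat.cast_sub hvK] at this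
      push_cast at this
      exact this
    have e4 : (al : ℝ) + 2 * g ≤ K := by exact_mod_cast h2
    have e5 : (al' : ℝ) ≤ K' := by exact_mod_cast hal'
    have hCr : (1:ℝ) ≤ C := by exact_mod_cast hC
    have hgr : 16 * (C:ℝ) ≤ g := by exact_mod_cast hg
    set x : ℝ := ((al - lo : ℕ) : ℝ) with hx
    set z : ℝ := (K : ℝ) - al with hz
    set G : ℝ := (g : ℝ) with hG
    have hg0 : 0 ≤ G := by linarith
    have hz2 : 2 * G ≤ z := by rw [hz]; linarith
    have hx0 : 0 ≤ x := Nat.cast_nonneg _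
    -- `z - x ≥ G / C`
    have e6 : G / C ≤ z - x := by
      rw [div_le_iff₀ (by linarith)]
      have e7 : z ≤ (z - x) * (C + 1) := by
        have e : (z - x) * ((C:ℝ) + 1) = (C + 1) * z - (C + 1) * x := by ring
        rw [e]; linarith
      have e8 : 0 ≤ z - x := nonneg_of_mul_nonneg_left (by linarith) (by linarith : 0 < (C:ℝ) + 1)
      have e9 : (z - x) * ((C:ℝ) + 1) ≤ (z - x) * (2 * C) :=
        mul_le_mul_of_nonneg_left (by linarith) e8
      nlinarith
    have e7 : G / (8 * C) = G / C / 8 := by field_simp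
    have e8 : 16 ≤ G / C := by rw [le_div_iff₀ (by linarith)]; exact hgr
    push_cast
    linarith

/-- **(TRIV)**, top of the zone of `K` not below, from `ZF` -/
theorem far_leftZ {C g al al' lo : ℕ} (hC : 5 ≤ C) (hK : K' + g ≤ K) (hg : 16 * C ≤ g)
    (h : al ≤ K') (h1 : al' ≤ al) (hx : (10 * C + 9) * (al' - lo) ≤ 10 * C * (K - K'))
    (hP : ∀ Z, P Z → ZF Z lo al) (hP' : ∀ Z, P' Z → Zone.Ok Z ∧ Z.top = al') :
    FarB (g / (8 * C)) K K' al al' P P' := by
  refine far_left (lo := lo) (M := 2) hC hK h h1 ?_ hx (fun Z hZ => ⟨(hP Z hZ).top, (hP Z hZ).card⟩)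
    hP'
  have : 1 ≤ g / (4 * C) := by
    rw [Nat.one_le_div_iff (by omega)]
    omega
  calc 2 = 2 ^ 1 := rfl
    _ ≤ _ := Nat.pow_le_pow_right (by norm_num) this

/-- **(TRIV)**, top of the zone of `K'` not below, from `ZF` -/
theorem far_rightZ {C g al al' lo : ℕ} (hC : 5 ≤ C) (hK : K' + g ≤ K) (hg : 16 * C ≤ g)
    (h : al' ≤ K') (h1 : al ≤ al') (hx : (10 * C + 9) * (al - lo) ≤ 10 * C * (K - K'))
    (hP : ∀ Z, P Z → Zone.Ok Z ∧ Z.top = al) (hP' : ∀ Z, P' Z → ZF Z lo al') :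
    FarB (g / (8 * C)) K K' al al' P P' := by
  refine far_right (lo := lo) (M := 2) hC hK h h1 ?_ hx hP
    (fun Z hZ => ⟨(hP' Z hZ).top, (hP' Z hZ).card⟩)
  have : 1 ≤ g / (4 * C) := by
    rw [Nat.one_le_div_iff (by omega)]
    omega
  calc 2 = 2 ^ 1 := rfl
    _ ≤ _ := Nat.pow_le_pow_right (by norm_num) this

/-! ### regions of the top zone -/

/-- everything needed of a region of the top zone -/
lemma top_facts (hc : 10 ≤ c) {t E : ℕ} (ht : E0 c ≤ epo c t) (hE : epo c t ≤ E)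
    (hT : ∀ e, E0 c ≤ e → e ≤ E + 1 → ∃ B, TopCodes c D e B ∧ TopNum c (gth c K) e B)
    {d : Top} (hd : OccT c t d) : E0 c ≤ ep c d.lo ∧
    ∃ B, TopCodes c D (ep c d.lo) B ∧ TopNum c (gth c K) (ep c d.lo) B := by
  have hE0 := E0_ge hc
  have he : E0 c ≤ ep c d.lo := ht.trans (epo_le_ep hc (by omega) hd.2.1)
  refine ⟨he, hT _ he ?_⟩
  have h1 : d.lo ≤ t := by
    have := hd.2.2
    have := zb_lt hc ht
    unfold Top.hi at *
    omega
  exact (ep_le_of h1).trans (by omega)

/-- a region of the top zone is inside its unit -/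
lemma hi_le_unit (hc : 10 ≤ c) {d : Top} (he : E0 c ≤ ep c d.lo) {t : ℕ} (hd : d.At c t) {s : ℕ}
    (h1 : d.lo ≤ s) (h2 : s < d.hi c) : un c s = un c d.lo ∧ un c d.lo ≤ d.lo ∧
      d.hi c ≤ un c s + Wd c s := by
  have hE0 := E0_ge hc
  have he1 : 1 ≤ ep c d.lo := by omega
  refine ⟨?_, un_le c _, ?_⟩
  · cases d with
    | T2 b => rw [(un_of_mem hc he1 hd.1 h1 h2).1]; exact hd.1.symm
    | C2 b => rw [(un_of_mem hc he1 hd.1 h1 h2).1]; exact hd.1.symm
    | mid f =>
      have q := mb_of_mem hc he hd.1 h1 h2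
      rw [← un_mb hc (s := s) (by omega), q.1]
    | T1 f =>
      have q := mb_of_mem hc he hd.1 h1 h2
      rw [← un_mb hc (s := s) (by omega), q.1]
    | C1 f =>
      have q := mb_of_mem hc he hd.1 h1 h2
      rw [← un_mb hc (s := s) (by omega), q.1]
    | cell p =>
      have q := sb_of_mem hc he hd.1 h1 h2
      rw [← un_sb hc (s := s) (by omega), q.1]
  · cases d with
    | T2 b =>
      have q := un_of_mem hc he1 hd.1 h1 h2
      have q2 : Wd c s = Wd c b := by unfold Wd; rw [q.2]; rfl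
      rw [q.1, q2]
      exact le_rfl
    | C2 b =>
      have q := un_of_mem hc he1 hd.1 h1 h2
      have q2 : Wd c s = Wd c b := by unfold Wd; rw [q.2]; rfl
      rw [q.1, q2]
      exact le_rfl
    | mid f =>
      have q := mb_of_mem hc he hd.1 h1 h2
      have q1 := mb_add_le hc (s := s) (by omega)
      have q2 : Hd c s = Hd c f := by unfold Hd; rw [q.2]; rfl
      rw [q.1, q2] at q1
      exact q1
    | T1 f =>
      have q := mb_of_mem hc he hd.1 h1 h2
      have q1 := mb_add_le hc (s := s) (by omega)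
      have q2 : Hd c s = Hd c f := by unfold Hd; rw [q.2]; rfl
      rw [q.1, q2] at q1
      exact q1
    | C1 f =>
      have q := mb_of_mem hc he hd.1 h1 h2
      have q1 := mb_add_le hc (s := s) (by omega)
      have q2 : Hd c s = Hd c f := by unfold Hd; rw [q.2]; rfl
      rw [q.1, q2] at q1
      exact q1
    | cell p =>
      have q := sb_of_mem hc he hd.1 h1 h2
      have q1 := mb_add_le hc (s := s) (by omega)
      have q3 := sb_add_le hc (s := s) (by omega)
      have q2 : Ld c s = Ld c p := by unfold Ld; rw [q.2]; rfl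
      rw [q.1, q2] at q3
      exact q3.trans q1

/-- the time of a region of the top zone: the depth is at least three lengths, except for the
small cells -/
lemma depth_top {d : Top} {t : ℕ} (hd : d.At c t) : (∃ p, d = .cell p) ∨
    d.hi c + 2 * d.len c ≤ t := by
  cases d with
  | T2 b =>
    right
    obtain ⟨-, h, -⟩ := hd
    have := le_tU c 2 b
    show b + Wd c b + 2 * Wd c b ≤ t
    omega
  | C2 b =>
    right
    obtain ⟨-, h, -⟩ := hd
    have := le_tU c 1 b
    show b + Wd c b + 2 * Wd c b ≤ t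
    omega
  | mid f =>
    right
    obtain ⟨-, h, -⟩ := hd
    have := le_tB c 3 f
    show f + Hd c f + 2 * Hd c f ≤ t
    omega
  | T1 f =>
    right
    obtain ⟨-, h, -⟩ := hd
    have := le_tB c 2 f
    show f + Hd c f + 2 * Hd c f ≤ t
    omega
  | C1 f =>
    right
    obtain ⟨-, h, -⟩ := hd
    have := le_tB c 1 f
    show f + Hd c f + 2 * Hd c f ≤ t
    omega
  | cell p => exact Or.inl ⟨p, rfl⟩

/-- the small cells near `K` are much shorter than the far threshold -/
lemma ll_le_gth (hc : 10 ≤ c) (ht : E0 c ≤ epo c K) {e : ℕ} (h1 : epo c K ≤ e)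
    (h2 : e ≤ epo c K + 1) : 512 * CC c * ll c e ≤ gth c K := by
  have hE := E0_ge hc
  rw [mul_assoc]
  exact Helper29.E2.ll_le_Gq hc (by omega) h1 h2

/-- **a region of the top zone at `K`** against any region below the zone at `K'` -/
theorem far_top (hyp : CaseHyp c D.toCodes K K') (hT : TopHyp c D K K') {d : Top} {r0 r0' r1' : Reg2}
    (h0 : ¬ isPT2 r0) (hd : OccT c K d)
    (hct : 2 * ((d.reg c).rg D).top + gth c K ≤ 2 * K) (h' : HasDesc2 c K' r0' r1') :
    FarB (gth c K / (8 * CC c)) K K' ((d.reg c).rg D).top (r1'.rg D).top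
      (ZoneOf2 D r0 (d.reg c)) (ZoneOf2 D r0' r1') := by
  have hc : 10 ≤ c := by have := hyp.c20; omega
  have hc1 : 1 ≤ c := by omega
  have hC := CC_ge hc
  have hE := E0_ge hc
  have hg := hyp.g
  have hKK : K' ≤ K := by omega
  have ht' := hT.big
  have ht : E0 c ≤ epo c K := ht'.trans (epo_mono hKK)
  have hg16 : 16 * CC c ≤ gth c K :=
    (Pool.Agent.E2S.farNum_mk hyp.c20 (by have := hyp.epo; omega) hyp.g).g16
  have hwKK := wb_mono hc hKK
  have hwb' := hyp.O'.K.wbt
  obtain ⟨he, B, hB, hN⟩ := top_facts hc ht le_rfl hT.codes hd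
  have htop := top_rg hB
  have hZ : ∀ Z, ZoneOf2 D r0 (d.reg c) Z → CellU d.lo (d.len c) (topX c D d) 1 Z := fun Z hZ =>
    cellU_top hB h0 hZ
  have hZF : ∀ Z, ZoneOf2 D r0 (d.reg c) Z → ZF Z d.lo (d.hi c) := fun Z h =>
    zf_top hc he hB (hZ Z h)
  have hlen := Top.len_pos hc d
  have hhi : d.hi c = d.lo + d.len c := rfl
  rw [htop] at hct ⊢
  -- the region at `K'`
  obtain ⟨d', hd'⟩ := h'
  cases d' with
  | old d' =>
    obtain ⟨q0, q1, rfl, rfl, hd'⟩ := hd'
    have hR := hyp.D.reg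
    have t2 : ((Reg2.old q1).rg D).top = d'.hi c := top_desc hR hd'
    have l2 := desc_le hd'
    have z2 : ∀ Z, ZoneOf2 D (.old q0) (.old q1) Z → Zone.Ok Z ∧ Z.top = d'.hi c := by
      intro Z hZ'
      have f := zfacts_desc hR hyp.D.T hc1 hyp.O' hd' (zoneOf2_old.mp hZ')
      exact ⟨f.ok, f.top⟩
    rw [t2]
    have hlo := hd.2.1
    rcases Nat.lt_or_ge K' (d.hi c) with hcut | hcut
    · rcases Nat.lt_or_ge d.lo K' with h1 | h1
      · refine far_top_cut (lo := d.lo) (M := 2) (by omega) hg hcut.le (by omega) h1.le ?_ ?_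
          (fun Z h => ⟨(hZF Z h).top, (hZF Z h).card⟩) z2
        · calc 2 = 2 ^ 1 := rfl
            _ ≤ _ := Nat.pow_le_pow_right (by norm_num)
              ((Nat.one_le_div_iff (by omega)).mpr hg16)
        · rcases depth_top hd.1 with ⟨p, rfl⟩ | h2
          · have h3 : 512 * CC c * ll c (ep c p) ≤ gth c K :=
              ll_le_gth hc ht (epo_le_ep hc (by omega) hlo) (ep_le_of (by
                have : (Top.cell p).lo = p := rfl
                omega))
            have h4 : 512 * 1024 * ll c (ep c p) ≤ 512 * CC c * ll c (ep c p) :=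
              Nat.mul_le_mul_right _ (Nat.mul_le_mul_left _ hC)
            have h5 : (Top.cell p).hi c = p + ll c (ep c p) := rfl
            have h6 : (Top.cell p).lo = p := rfl
            omega
          · omega
      · exact far_above (by omega) (by omega) h1 (by omega) (by omega) hct hZF z2
    · exact far_leftZ (by omega) hg hg16 hcut (by omega) (by
        have : d'.hi c - d.lo = 0 := by omega
        rw [this]; omega) hZF z2
  | top d' =>
    obtain ⟨rfl, h0', hd'⟩ := hd'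
    obtain ⟨he', B', hB', -⟩ := top_facts hc ht' (epo_mono hKK) hT.codes hd'
    have htop' := top_rg hB'
    have hZ' : ∀ Z, ZoneOf2 D r0' (d'.reg c) Z → CellU d'.lo (d'.len c) (topX c D d') 1 Z :=
      fun Z hZ => cellU_top hB' h0' hZ
    have hZF' : ∀ Z, ZoneOf2 D r0' (d'.reg c) Z → ZF Z d'.lo (d'.hi c) := fun Z h =>
      zf_top hc he' hB' (hZ' Z h)
    have z2 : ∀ Z, ZoneOf2 D r0' (d'.reg c) Z → Zone.Ok Z ∧ Z.top = d'.hi c := fun Z h =>
      ⟨(hZF' Z h).ok, (hZF' Z h).top⟩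
    have z1 : ∀ Z, ZoneOf2 D r0 (d.reg c) Z → Zone.Ok Z ∧ Z.top = d.hi c := fun Z h =>
      ⟨(hZF Z h).ok, (hZF Z h).top⟩
    rw [htop']
    have hlo := hd.2.1
    have hlen' := Top.len_pos hc d'
    have hhi' : d'.hi c = d'.lo + d'.len c := rfl
    have hz' := hd'.2.2
    have hzb := zb_lt hc ht'
    rcases Nat.lt_or_ge K' (d.hi c) with hcut | hcut
    · rcases Nat.lt_or_ge d.lo K' with h1 | h1
      · refine far_top_cut (lo := d.lo) (M := 2) (by omega) hg hcut.le (by omega) h1.le ?_ ?_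
          (fun Z h => ⟨(hZF Z h).top, (hZF Z h).card⟩) z2
        · calc 2 = 2 ^ 1 := rfl
            _ ≤ _ := Nat.pow_le_pow_right (by norm_num)
              ((Nat.one_le_div_iff (by omega)).mpr hg16)
        · rcases depth_top hd.1 with ⟨p, rfl⟩ | h2
          · have h3 : 512 * CC c * ll c (ep c p) ≤ gth c K :=
              ll_le_gth hc ht (epo_le_ep hc (by omega) hlo) (ep_le_of (by
                have : (Top.cell p).lo = p := rfl
                omega))
            have h4 : 512 * 1024 * ll c (ep c p) ≤ 512 * CC c * ll c (ep c p) :=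
              Nat.mul_le_mul_right _ (Nat.mul_le_mul_left _ hC)
            have h5 : (Top.cell p).hi c = p + ll c (ep c p) := rfl
            have h6 : (Top.cell p).lo = p := rfl
            omega
          · omega
      · exact far_above (by omega) (by omega) h1 (by omega) (by omega) hct hZF z2
    · rcases Nat.lt_or_ge d.lo (d'.hi c) with h1 | h1
      · rcases Nat.lt_or_ge d'.lo (d.hi c) with h2 | h2
        · exact far_top_top hc hB hN (by omega) hg ht' hd hd' hcut hZ hZ'
            (s := max d.lo d'.lo) (le_max_left _ _) (max_lt (by omega) h2) (le_max_right _ _)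
            (max_lt h1 (by omega))
        · exact far_rightZ (by omega) hg hg16 (by omega) (by omega) (by
            have : d.hi c - d'.lo = 0 := by omega
            rw [this]; omega) z1 hZF'
      · exact far_leftZ (by omega) hg hg16 hcut (by omega) (by
          have : d'.hi c - d.lo = 0 := by omega
          rw [this]; omega) hZF z2

/-- **an `R` zone of the merged part at `K`** against a region of the top zone at `K'` -/
theorem far_R_top (hyp : CaseHyp c D.toCodes K K') (hT : TopHyp c D K K') {d : Desc}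
    {q0 q1 : Reg} {d' : Top} {r0' : Reg2} (hd : IsDesc c K d q0 q1) (hR : d.IsR)
    (h0' : ¬ isPT2 r0') (hd' : OccT c K' d') :
    FarB (gth c K / (8 * CC c)) K K' ((Reg2.old q1).rg D).top ((d'.reg c).rg D).top
      (ZoneOf2 D (.old q0) (.old q1)) (ZoneOf2 D r0' (d'.reg c)) := by
  have hc : 10 ≤ c := by have := hyp.c20; omega
  have hc1 : 1 ≤ c := by omega
  have hC := CC_ge hc
  have hE := E0_ge hc
  have hg := hyp.g
  have hKK : K' ≤ K := by omega
  have ht' := hT.big
  have ht : E0 c ≤ epo c K := ht'.trans (epo_mono hKK)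
  have hg16 : 16 * CC c ≤ gth c K :=
    (Pool.Agent.E2S.farNum_mk hyp.c20 (by have := hyp.epo; omega) hyp.g).g16
  have hRg := hyp.D.reg
  have hocc : Occ c K d := ⟨q0, q1, hd⟩
  have t1 : ((Reg2.old q1).rg D).top = d.hi c := top_desc hRg hd
  have l1 := desc_le hd
  have hwK := hyp.O.K.wbt
  have hZF : ∀ Z, ZoneOf2 D (.old q0) (.old q1) Z → ZF Z d.lo (d.hi c) := by
    intro Z hZ
    have f := zfacts_desc hRg hyp.D.T hc1 hyp.O hd (zoneOf2_old.mp hZ)
    exact ⟨f.ok, f.top, f.low, card_le_of_sq f.card⟩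
  have z1 : ∀ Z, ZoneOf2 D (.old q0) (.old q1) Z → Zone.Ok Z ∧ Z.top = d.hi c := fun Z h =>
    ⟨(hZF Z h).ok, (hZF Z h).top⟩
  obtain ⟨he', B', hB', -⟩ := top_facts hc ht' (epo_mono hKK) hT.codes hd'
  have htop' := top_rg hB'
  have hZ' : ∀ Z, ZoneOf2 D r0' (d'.reg c) Z → CellU d'.lo (d'.len c) (topX c D d') 1 Z :=
    fun Z hZ => cellU_top hB' h0' hZ
  have hZF' : ∀ Z, ZoneOf2 D r0' (d'.reg c) Z → ZF Z d'.lo (d'.hi c) := fun Z h =>
    zf_top hc he' hB' (hZ' Z h)
  have z2 : ∀ Z, ZoneOf2 D r0' (d'.reg c) Z → Zone.Ok Z ∧ Z.top = d'.hi c := fun Z h =>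
    ⟨(hZF' Z h).ok, (hZF' Z h).top⟩
  rw [t1, htop']
  have hlen' := Top.len_pos hc d'
  have hhi' : d'.hi c = d'.lo + d'.len c := rfl
  have hz' := hd'.2.2
  have hzb := zb_lt hc ht'
  have F8 := hyp.F.F8 d hocc
  rcases Nat.lt_or_ge K' (d.hi c) with hcut | hcut
  · exact far_cutR (by omega) hg16 hcut.le l1.1.le (by omega) (hyp.F.F5R d hocc hR).1 F8 hZF z2
  rcases Nat.lt_or_ge d.lo (d'.hi c) with h1 | h1
  swap
  · exact far_leftZ (by omega) hg hg16 hcut (by omega) (by
      have : d'.hi c - d.lo = 0 := by omega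
      rw [this]; omega) hZF z2
  rcases Nat.lt_or_ge d'.lo (d.hi c) with h2 | h2
  swap
  · exact far_rightZ (by omega) hg hg16 (by omega) (by omega) (by
      have : d.hi c - d'.lo = 0 := by omega
      rw [this]; omega) z1 hZF'
  -- the zones meet
  obtain ⟨s, hs⟩ : ∃ s, s = max d.lo d'.lo := ⟨_, rfl⟩
  have hs1 : d.lo ≤ s := by rw [hs]; exact le_max_left _ _
  have hs1' : d'.lo ≤ s := by rw [hs]; exact le_max_right _ _
  have hs2 : s < d.hi c := by rw [hs]; exact max_lt l1.1 h2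
  have hs2' : s < d'.hi c := by rw [hs]; exact max_lt h1 (by omega)
  obtain ⟨u1, u2, u3⟩ := hi_le_unit hc he' hd'.1 hs1' hs2'
  obtain ⟨f1, f2, f3⟩ := hyp.F.T1 d s hocc hR (hd'.2.1.trans hs1') hs1 hs2
  rcases f3 with ⟨b, rfl⟩ | f3
  · -- a newborn cell
    have hb1 : b ≤ un c s := f1
    have hb2 : un c s + Wd c s ≤ b + Wd c b := f2
    have hbs : b ≤ s := hs1
    have hWs : Wd c b ≤ Wd c s := Wd_mono hbs
    have hub : un c s = b := by omega
    have hWW : Wd c s = Wd c b := by omega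
    have hbb : un c b = b := by rw [← hub]; exact un_un hc s
    have heb : ep c b = ep c s := by rw [← hub]; exact Helper29.E2.ep_un hc s
    have hes : E0 c ≤ ep c s := he'.trans (ep_mono hs1')
    have hbK : b < wb c K := by
      have h3 := l1.1
      have h4 := l1.2
      have : (Desc.RTh b (b + Wd c b)).lo = b := rfl
      omega
    have hUK : tU c 3 b ≤ K := by
      have := of_lt_wb hc hbK
      rwa [hbb] at this
    obtain ⟨B, hB, hN⟩ := hT.codes (ep c b) (by omega) (ep_le_of (by omega))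
    obtain ⟨rfl, hnp, -⟩ := hd
    refine far_unit hc hB hN (by omega) (by omega) hg (k := 3) hbb rfl (by norm_num) le_rfl
      ((tU_le c (by norm_num) b).trans hUK) hcut ?_ ht' hd' hZ' (by rw [← u1, hub])
      (fun _ _ => by norm_num)
    intro Z hZ
    obtain ⟨a, κ, ha, rfl⟩ := Pool.Agent.E2S.zoneOf_notPT hnp (zoneOf2_old.mp hZ)
    exact cellU_RTh hB.W hB.R ha
  · refine far_leftZ (by omega) hg hg16 hcut (by omega) ?_ hZF z2
    refine le_trans (Nat.mul_le_mul_left _ ?_) f3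
    omega

/-- the two cases of `P` zones of the merged part at `K` (helper5) -/
structure FarPCases (c : ℕ) (D : Codes2) (K K' : ℕ) : Prop where
  /-- a `P` zone of `K` against a region of the top zone of `K'` -/
  PT : ∀ d q0 q1 d' r0', IsDesc c K d q0 q1 → d.IsP → ¬ isPT2 r0' → OccT c K' d' →
    FarB (gth c K / (8 * CC c)) K K' ((Reg2.old q1).rg D).top ((d'.reg c).rg D).top
      (ZoneOf2 D (.old q0) (.old q1)) (ZoneOf2 D r0' (d'.reg c))

/-- **All far pairs.** -/
theorem far_all (hyp : CaseHyp c D.toCodes K K') (hT : TopHyp c D K K')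
    (h4 : FarCases4 c D.toCodes K K') (hP : FarPCases c D K K') {r0 r1 r0' r1' : Reg2}
    (hct : 2 * (r1.rg D).top + gth c K ≤ 2 * K) (h : HasDesc2 c K r0 r1)
    (h' : HasDesc2 c K' r0' r1') :
    FarB (gth c K / (8 * CC c)) K K' (r1.rg D).top (r1'.rg D).top (ZoneOf2 D r0 r1)
      (ZoneOf2 D r0' r1') := by
  obtain ⟨d, hd⟩ := h
  cases d with
  | top d =>
    obtain ⟨rfl, h0, hd⟩ := hd
    exact far_top hyp hT h0 hd hct h'
  | old d =>
    obtain ⟨q0, q1, rfl, rfl, hd⟩ := hd
    obtain ⟨d', hd'⟩ := h'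
    cases d' with
    | old d' =>
      obtain ⟨q0', q1', rfl, rfl, hd'⟩ := hd'
      exact farB_of_old (far_old hyp h4 ⟨d, hd⟩ ⟨d', hd'⟩)
    | top d' =>
      obtain ⟨rfl, h0', hd'⟩ := hd'
      have hRP : d.IsR ∨ d.IsP := by cases d <;> simp [Desc.IsR, Desc.IsP]
      rcases hRP with hR | hP'
      · exact far_R_top hyp hT hd hR h0' hd'
      · exact hP.PT d q0 q1 d' r0' hd hP' h0' hd'

end Pool.Agent.Helper86.E2
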