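import Mathlib
import Pool.Agent.Helper86.E2.FarAll
import Pool.Agent.Helper86.E2.CutB
import Pool.Agent.Helper5.E2P.CutMk

/-!
# E-T (MP_12a1af_nt), phase 2: `P` zones of the merged part at `K` against the top zone of `K'`
-/

set_option autoImplicit false

open Finset

namespace Pool.Agent.Helper86.E2

open Pool.Agent.ETS hiding Desc Occ IsDesc pidx
open Pool.Agent.ETP (phiV)
open Pool.Agent.Helper5.ETP (Zone.Ok Zone.Low PZ)
open Pool.Agent.ETS (PCode)
open Pool.Agent.E2 (comp Rg Reg2 Codes2 Top OccT isPT2 isPT Desc IsDesc Occ Desc2 IsDesc2 HasDesc2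
  pidx)
open Pool.Agent.Helper29.ETK (CC lg gl sl kk Gq Tq CC_ge one_lt_CC pow_pos' pow_le pow_dvd'
  lg_le lt_lg lg_mono lg_eq le_lg lg_lt Gq_pos kk_le le_two_kk)
open Pool.Agent.Helper29.E2 (ep epo un mb sb Wd Hd Ld hh ll tU tB wb zb gth ep_mono epo_mono un_le
  lt_un Wd_un un_un un_eq_iff Wd_pos j0)
open Pool.Agent.E2S (ZFacts zfacts_desc top_desc desc_le card_le_of_sq CaseHyp FarCases4 far_old)
open Pool.Agent.Helper5.E2P (lo_dvd level_desc pz_desc pfar_mk ep_unit not_inside ep_of_P)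

variable {c : ℕ} {D : Codes2} {K K' : ℕ} {P P' : Zone → Prop}

lemma low_of_low {Z : Zone} {s u r : ℕ} (h : u ≤ s) (hr : Zone.Low Z s r) :
    Zone.Low Z u (r % 2 ^ u) := by
  intro v hv
  have h3 := hr v hv
  have h4 : v % 2 ^ u = v % 2 ^ s % 2 ^ u := (Nat.mod_mod_of_dvd _ (pow_dvd_pow 2 h)).symm
  rw [h4, h3]

/-- a zone of `P` type at `K` against a zone of `K'` inside it, digits known below `u` -/
theorem far_P_low {N g p f b w al' u W : ℕ} {C : Codes} (hX : PCode (C.X p) (C.P p))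
    (hN : 20 ≤ N) (hK : K' + g ≤ K) (hg : 16 * N ≤ g) (hal : b + w ≤ K') (hal' : al' ≤ b + w)
    (h1 : f ≤ u) (h2 : u ≤ b) (hu : u ≤ al') (hW : al' ≤ u + W) (hwW : w ≤ W)
    (h8 : 100 * W ≤ K - K') (hPZ : ∀ Z, P Z → PZ C p f b w Z)
    (hP' : ∀ Z, P' Z → Zone.Ok Z ∧ Z.top = al' ∧ ∃ r, Zone.Low Z u r) :
    FarB (g / (8 * N)) K K' (b + w) al' P P' := by
  refine farB_pow (m := 1 + ((b - f + 1) / 2 - (u - f)) + w / 2) ?_
    (phiV_eq_of_le (by omega) hal (by omega)) ?_
  · intro n Z Z' hZ hZ'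
    obtain ⟨f1, f2, r, hr⟩ := hP' Z' hZ'
    have hk : f + (u - f) = u := by omega
    have h3 := (hPZ Z hZ).lowB (K := K) (K' := K') (n := n) (k := u - f) (r₀ := r) hX f1
      (by rw [hk]; exact hr) (by omega) (by omega) (by omega) (by omega) (by omega)
    refine h3.trans ?_
    rw [pow_add]
    refine Nat.mul_le_mul_right _ ?_
    rw [add_comm 1, pow_succ]
    have : 0 < 2 ^ ((b - f + 1) / 2 - (u - f)) := by positivity
    omega
  · have hq : g / (8 * N) * (8 * N) ≤ g := Nat.div_mul_le_self _ _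
    have hq2 : g / (8 * N) * 160 ≤ g / (8 * N) * (8 * N) := Nat.mul_le_mul_left _ (by omega)
    generalize g / (8 * N) = q at hq hq2 ⊢
    have hmain : 2 * (1 + ((b - f + 1) / 2 - (u - f)) + w / 2) + 2 * q + K' + al' ≤
        K + (b + w) := by omega
    generalize 1 + ((b - f + 1) / 2 - (u - f)) + w / 2 = m at hmain ⊢
    have e1 : 2 * (m : ℝ) + 2 * q + K' + al' ≤ K + ((b + w : ℕ) : ℝ) := by exact_mod_cast hmain
    have e2 : ((al' : ℕ) : ℝ) ≤ ((b + w : ℕ) : ℝ) := by exact_mod_cast hal'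
    rw [abs_of_nonneg (by linarith)]
    linarith

/-- **`P` zones of the merged part at `K`** against a region of the top zone at `K'` -/
theorem far_P_top (hyp : CaseHyp c D.toCodes K K') (hT : TopHyp c D K K') {d : Desc}
    {q0 q1 : Reg} {d' : Top} {r0' : Reg2} (hd : IsDesc c K d q0 q1) (hP : d.IsP)
    (h0' : ¬ isPT2 r0') (hd' : OccT c K' d') :
    FarB (gth c K / (8 * CC c)) K K' ((Reg2.old q1).rg D).top ((d'.reg c).rg D).top
      (ZoneOf2 D (.old q0) (.old q1)) (ZoneOf2 D r0' (d'.reg c)) := by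
  have hc : 10 ≤ c := by have := hyp.c20; omega
  have hc1 : 1 ≤ c := by omega
  have hC := CC_ge hc
  have hE := E0_ge hc
  have hg := hyp.g
  have hKK : K' ≤ K := by omega
  have ht' := hT.big
  have ht : E0 c ≤ epo c K := ht'.trans (epo_mono hKK)
  have hg16 : 16 * CC c ≤ gth c K :=
    (Pool.Agent.E2S.farNum_mk hyp.c20 (by have := hyp.epo; omega) hyp.g).g16
  have hRg := hyp.D.reg
  have hocc : Occ c K d := ⟨q0, q1, hd⟩
  have t1 : ((Reg2.old q1).rg D).top = d.hi c := top_desc hRg hd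
  have l1 := desc_le hd
  have hwK := hyp.O.K.wbt
  have hZF : ∀ Z, ZoneOf2 D (.old q0) (.old q1) Z → ZF Z d.lo (d.hi c) := by
    intro Z hZ
    have f := zfacts_desc hRg hyp.D.T hc1 hyp.O hd (zoneOf2_old.mp hZ)
    exact ⟨f.ok, f.top, f.low, card_le_of_sq f.card⟩
  have z1 : ∀ Z, ZoneOf2 D (.old q0) (.old q1) Z → Zone.Ok Z ∧ Z.top = d.hi c := fun Z h =>
    ⟨(hZF Z h).ok, (hZF Z h).top⟩
  obtain ⟨he', B', hB', -⟩ := top_facts hc ht' (epo_mono hKK) hT.codes hd'
  have htop' := top_rg hB'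
  have hZ' : ∀ Z, ZoneOf2 D r0' (d'.reg c) Z → CellU d'.lo (d'.len c) (topX c D d') 1 Z :=
    fun Z hZ => cellU_top hB' h0' hZ
  have hZF' : ∀ Z, ZoneOf2 D r0' (d'.reg c) Z → ZF Z d'.lo (d'.hi c) := fun Z h =>
    zf_top hc he' hB' (hZ' Z h)
  have z2 : ∀ Z, ZoneOf2 D r0' (d'.reg c) Z → Zone.Ok Z ∧ Z.top = d'.hi c := fun Z h =>
    ⟨(hZF' Z h).ok, (hZF' Z h).top⟩
  rw [t1, htop']
  have hlen' := Top.len_pos hc d'
  have hhi' : d'.hi c = d'.lo + d'.len c := rfl
  have hz' := hd'.2.2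
  have hzb := zb_lt hc ht'
  have F8 := hyp.F.F8 d hocc
  have hpz := pz_desc (by norm_num) hRg hyp.D.T hc1 hyp.O hd hP
  obtain ⟨p1, p2, p3, p4⟩ := hpz
  -- the bottom is aligned
  have hlod := lo_dvd hc1 hyp.O hd
  -- above `K'`
  rcases Nat.lt_or_ge d.lo K' with hloK | hloK
  swap
  · exact far_above (by omega) (by omega) hloK l1.1.le (by omega) (by omega) hZF z2
  -- the region of `K'` is above or below the bottom
  have hside : d'.hi c ≤ d.lo ∨ d.lo ≤ d'.lo := by
    by_contra hcon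
    push Not at hcon
    obtain ⟨u1, u2, -⟩ := hi_le_unit hc he' hd'.1 (s := d.lo) hcon.2.le hcon.1
    rw [un_eq_iff.mpr hlod] at u1
    omega
  rcases Nat.lt_or_ge K' (d.hi c) with hcut | hcut
  · -- the zone contains `K'`
    obtain ⟨A, E1, a1, a2, a3, a4, a5⟩ := level_desc hyp.c20 (pfar_mk hyp.c20 hyp.D) hyp.K1 hyp.O
      hyp.F hd hP hcut
    have hWs : ∀ s, s < d.hi c → Wd c s ≤ Wd c (d.hi c - 1) := fun s hs => Wd_mono (by omega)
    have hww : Pool.Agent.Helper5.E2P.Desc.ww c d ≤ Wd c (d.hi c - 1) := by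
      rcases p3 with ⟨h3, -⟩ | ⟨h3, -⟩
      · omega
      · rw [h3]
        have := Wd_pos c (Pool.Agent.Helper5.E2P.Desc.bb d)
        exact hWs _ (by omega)
    have CD : CutData2 (CC c) (gth c K) D.toCodes K K' (ZoneOf2 D (.old q0) (.old q1))
        (pidx c d.lo) d.lo (Pool.Agent.Helper5.E2P.Desc.bb d)
        (Pool.Agent.Helper5.E2P.Desc.ww c d) (Wd c (d.hi c - 1)) A E1 :=
      { hc := by omega
        code := (pfar_mk hyp.c20 hyp.D).code _
        fb := p2
        pz := fun Z hZ => p4 Z (zoneOf2_old.mp hZ)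
        g := hg
        f1 := hloK.le
        k1 := by omega
        A5 := by omega
        len := by omega
        E64 := a3
        ww := hww
        ws := a4 _ (by omega) (by omega)
        cut := a5 }
    rw [p1]
    rcases hside with hs | hs
    · refine CD.none (by omega) z2 ?_
      have : d'.hi c - d.lo = 0 := by omega
      rw [this]
      omega
    · -- inside
      obtain ⟨u1, u2, u3⟩ := hi_le_unit hc he' hd'.1 (s := d'.lo) le_rfl (by omega)
      obtain ⟨f1, f2, f3⟩ := hyp.F.T1P d d'.lo hocc hP hd'.2.1 hs (by omega) (by omega)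
      have hW' : Wd c d'.lo ≤ Wd c (d.hi c - 1) := hWs _ (by omega)
      refine CD.low (lo' := un c d'.lo) (X := 0) (by omega) f1 (by omega) ?_ ?_ (by omega)
        (by omega)
      · intro Z hZ
        obtain ⟨r, hr⟩ := (hZF' Z hZ).low
        exact ⟨(hZF' Z hZ).ok, (hZF' Z hZ).top, r % 2 ^ un c d'.lo, low_of_low u2 hr⟩
      · intro hbK
        rcases p3 with ⟨h3, h4⟩ | ⟨h3, h4⟩
        · omega
        · by_contra hcon
          push Not at hcon
          have hal : Wd c (un c d'.lo) ∣ un c d'.lo := un_eq_iff.mp (un_un hc _)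
          have h5 := not_inside hc h4 hal hcon
          omega
  · -- the zone is below `K'`
    rcases hside with hs | hs
    · exact far_leftZ (by omega) hg hg16 hcut (by omega) (by
        have : d'.hi c - d.lo = 0 := by omega
        rw [this]; omega) hZF z2
    rcases Nat.lt_or_ge d'.lo (d.hi c) with h2 | h2
    swap
    · exact far_rightZ (by omega) hg hg16 (by omega) (by omega) (by
        have : d.hi c - d'.lo = 0 := by omega
        rw [this]; omega) z1 hZF'
    obtain ⟨u1, u2, u3⟩ := hi_le_unit hc he' hd'.1 (s := d'.lo) le_rfl (by omega)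
    obtain ⟨f1, f2, f3⟩ := hyp.F.T1P d d'.lo hocc hP hd'.2.1 hs h2 (by omega)
    have hal : Wd c (un c d'.lo) ∣ un c d'.lo := un_eq_iff.mp (un_un hc _)
    -- the time is long
    have h100' : ∀ s, 4 * CC c ^ j0 c s ≤ K - K' → 100 * Wd c s ≤ K - K' := by
      intro s hs
      refine le_trans ?_ hs
      unfold j0 Wd
      rw [pow_add]
      have h8 : 25 ≤ CC c ^ 8 := le_trans (by omega) (Nat.le_self_pow (by norm_num) (CC c))
      calc 100 * CC c ^ ep c s = 4 * (CC c ^ ep c s * 25) := by ring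
        _ ≤ 4 * (CC c ^ ep c s * CC c ^ 8) :=
          Nat.mul_le_mul_left _ (Nat.mul_le_mul_left _ h8)
    have h100 := h100' _ f3
    have hbu : un c d'.lo ≤ Pool.Agent.Helper5.E2P.Desc.bb d := by
      rcases p3 with ⟨h3, h4⟩ | ⟨h3, h4⟩
      · omega
      · by_contra hcon
        push Not at hcon
        have h5 := not_inside hc h4 hal hcon
        omega
    have hww : Pool.Agent.Helper5.E2P.Desc.ww c d ≤ Wd c d'.lo ∨
        100 * Pool.Agent.Helper5.E2P.Desc.ww c d ≤ K - K' := by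
      rcases p3 with ⟨h3, -⟩ | ⟨h3, h4⟩
      · left; omega
      rcases Nat.eq_or_lt_of_le hbu with h5 | h5
      · left
        rw [h3, ← h5]
        exact (Wd_un hc _).le
      · right
        rw [h3]
        have hWb := Wd_pos c (Pool.Agent.Helper5.E2P.Desc.bb d)
        have h6 := not_inside hc hal h4 h5
        have h7 : Wd c (un c d'.lo) = Wd c d'.lo := Wd_un hc _
        have h8 := lt_un c d'.lo
        obtain ⟨-, -, f4⟩ := hyp.F.T1P d (Pool.Agent.Helper5.E2P.Desc.bb d) hocc hP (by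
          have := hd'.2.1
          omega) p2 (by omega) (by omega)
        exact h100' _ f4
    rw [p1]
    obtain ⟨W, hW⟩ : ∃ W, W = max (Wd c d'.lo) (Pool.Agent.Helper5.E2P.Desc.ww c d) := ⟨_, rfl⟩
    have hW1 : Wd c d'.lo ≤ W := by rw [hW]; exact le_max_left _ _
    have hW2 : Pool.Agent.Helper5.E2P.Desc.ww c d ≤ W := by rw [hW]; exact le_max_right _ _
    have hW3 : 100 * W ≤ K - K' := by
      rcases hww with h | h
      · rw [hW, max_eq_left h]; exact h100
      · rcases le_total (Wd c d'.lo) (Pool.Agent.Helper5.E2P.Desc.ww c d) with h5 | h5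
        · rw [hW, max_eq_right h5]; exact h
        · rw [hW, max_eq_left h5]; exact h100
    refine far_P_low (W := W) (u := un c d'.lo) ((pfar_mk hyp.c20 hyp.D).code _) (by omega) hg hg16
      (by omega) (by omega) f1 hbu (by omega) (by omega) hW2 hW3
      (fun Z hZ => p4 Z (zoneOf2_old.mp hZ)) ?_
    intro Z hZ
    obtain ⟨r, hr⟩ := (hZF' Z hZ).low
    exact ⟨(hZF' Z hZ).ok, (hZF' Z hZ).top, r % 2 ^ un c d'.lo, low_of_low u2 hr⟩

/-- the field `FarPCases` -/
theorem farPCases (hyp : CaseHyp c D.toCodes K K') (hT : TopHyp c D K K') : FarPCases c D K K' :=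
  ⟨fun _ _ _ _ _ hd hP h0' hd' => far_P_top hyp hT hd hP h0' hd'⟩

/-- **All far pairs**, only the cases of two regions of the merged parts are assumed. -/
theorem far_pairs (hyp : CaseHyp c D.toCodes K K') (hT : TopHyp c D K K')
    (h4 : FarCases4 c D.toCodes K K') {r0 r1 r0' r1' : Reg2}
    (hct : 2 * (r1.rg D).top + gth c K ≤ 2 * K) (h : HasDesc2 c K r0 r1)
    (h' : HasDesc2 c K' r0' r1') :
    FarB (gth c K / (8 * CC c)) K K' (r1.rg D).top (r1'.rg D).top (ZoneOf2 D r0 r1)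
      (ZoneOf2 D r0' r1') :=
  far_all hyp hT h4 (farPCases hyp hT) hct h h'

end Pool.Agent.Helper86.E2
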