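import Mathlib
import Pool.Agent.Helper86.E2.FarAll
import Pool.Agent.Helper86.E2.MkMerge
import Pool.Agent.E2S.MkFacts

/-!
# E-T (MP_12a1af_nt), phase 2: the codes `mk2` of helper83 satisfy `TopHyp`
-/

set_option autoImplicit false

open Finset

namespace Pool.Agent.Helper86.E2

open Pool.Agent.ETS
open Pool.Agent.ETS.RC (RBase Mult)
open Pool.Agent.E2 (comp Codes2)
open Pool.Agent.Helper29.ETK (CC lg Gq kk kk_le)
open Pool.Agent.Helper29.E2 (ep epo hh ll gth)
open Pool.Agent.E2S (CC_pos two_pow_kk_le aux_mono one_le_BT two_dvd_CC)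
open Pool.Agent.Helper83.E2 (cat mk2 SdOK mk2_loc1 mk2_loc2 loc1 loc2 C1s C2s n1 B1 Loc1 Loc2
  mkT_RBase Loc2.nearT_sub)
open Pool.Agent.Helper83.ET (BT BTh)

variable {c K : ℕ}

/-! ### numbers -/

lemma gth_big2 {x : ℕ} (hc : 20 ≤ c) (hE : 10 ≤ epo c K)
    (hx : x * (epo c K + 2) ≤ 4 * CC c ^ (epo c K - 4)) : x ≤ gth c K / (4 * CC c) := by
  have hC := Pool.Agent.E2S.CC_ge hc
  rw [Nat.le_div_iff_mul_le (by have := CC_pos c; omega)]
  unfold gth Gq
  generalize epo c K = E at hE hx ⊢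
  have hk := kk_le (c := c) (E := E - 1) (by omega) (by omega)
  have hk2 := two_pow_kk_le (E - 1)
  generalize kk (E - 1) = k at hk hk2 ⊢
  have e1 : 3 * (E - 1) + 10 = 3 * E + 7 := by omega
  rw [e1] at hk2
  have e2 : E - 1 - 1 = E - 2 := by omega
  rw [e2] at hk ⊢
  have hg : 2 ^ (c * (E - 2) - 10 - k) * 2 ^ (10 + k) = CC c ^ (E - 2) := by
    unfold CC
    rw [← pow_mul, ← pow_add]
    congr 1
    omega
  refine Nat.le_of_mul_le_mul_right ?_ (show 0 < 2 ^ (10 + k) by positivity)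
  rw [hg]
  have h1 : 2 ^ (10 + k) ≤ 2 ^ 16 * (E + 2) := by
    rw [pow_add]
    omega
  have h2 : CC c ^ (E - 2) = CC c ^ (E - 4) * CC c * CC c := by
    rw [← pow_succ, ← pow_succ]
    congr 1
    omega
  calc x * (4 * CC c) * 2 ^ (10 + k) ≤ x * (4 * CC c) * (2 ^ 16 * (E + 2)) :=
        Nat.mul_le_mul_left _ h1
    _ = x * (E + 2) * (2 ^ 18 * CC c) := by ring
    _ ≤ 4 * CC c ^ (E - 4) * (2 ^ 18 * CC c) := Nat.mul_le_mul_right _ hx
    _ = CC c ^ (E - 4) * CC c * 2 ^ 20 := by ring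
    _ ≤ CC c ^ (E - 4) * CC c * CC c := Nat.mul_le_mul_left _ hC
    _ = _ := h2.symm

lemma le_half {q : ℕ} (hc : 20 ≤ c) (hE : 10 ≤ epo c K)
    (hq : q * (epo c K + 2) ≤ CC c ^ (epo c K - 4)) : q ≤ gth c K / (4 * CC c) / 2 := by
  rw [Nat.le_div_iff_mul_le (by norm_num)]
  refine gth_big2 hc hE ?_
  calc q * 2 * (epo c K + 2) = 2 * (q * (epo c K + 2)) := by ring
    _ ≤ 4 * CC c ^ (epo c K - 4) := by omega

lemma key_pow {E : ℕ} (hc : 20 ≤ c) (hE : 20 ≤ E) : 2 ^ 20 * (E + 14) ^ 2 ≤ CC c ^ (E - 12) := by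
  have hC := Pool.Agent.E2S.CC_ge hc
  have h1 : E + 14 ≤ 2 ^ E := by
    have : E < 2 ^ (E - 1) := by
      have key : ∀ n, 6 ≤ n → n + 1 < 2 ^ n := by
        intro n hn
        induction n, hn using Nat.le_induction with
        | base => norm_num
        | succ n hn ih => rw [pow_succ]; omega
      have := key (E - 1) (by omega)
      omega
    have h2 : 2 ^ E = 2 ^ (E - 1) * 2 := by rw [← pow_succ]; congr 1; omega
    omega
  calc 2 ^ 20 * (E + 14) ^ 2 ≤ 2 ^ 20 * (2 ^ E) ^ 2 :=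
        Nat.mul_le_mul_left _ (Nat.pow_le_pow_left h1 2)
    _ = 2 ^ (20 + E * 2) := by rw [← pow_mul, ← pow_add]
    _ ≤ 2 ^ (20 * (E - 12)) := Nat.pow_le_pow_right (by norm_num) (by omega)
    _ = (2 ^ 20) ^ (E - 12) := by rw [pow_mul]
    _ ≤ _ := Nat.pow_le_pow_left hC _

/-- the ratio of the lengths of a unit and a mid block -/
lemma unit_div_le {e : ℕ} (he : 4 ≤ e) (hc : 20 ≤ c) :
    CC c ^ e / hh c e ≤ 2 ^ 14 * (3 * e + 10) := by
  have hk := kk_le (c := c) (E := e) (by omega) he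
  have h1 : c * (e + 4) = c * (e - 1) + c * 5 := by rw [← mul_add]; congr 1; omega
  have h2 : hh c e * 2 ^ (10 + kk e) = CC c ^ (e + 4) := by
    unfold hh CC
    rw [← pow_mul, ← pow_add]
    congr 1
    omega
  have hpos : 0 < hh c e := by unfold hh; positivity
  have h3 : CC c ^ e ≤ CC c ^ (e + 4) := Nat.pow_le_pow_right (CC_pos c) (by omega)
  calc CC c ^ e / hh c e ≤ CC c ^ (e + 4) / hh c e := Nat.div_le_div_right h3
    _ = 2 ^ (10 + kk e) := by rw [← h2]; exact Nat.mul_div_cancel_left _ hpos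
    _ = 2 ^ 10 * 2 ^ kk e := pow_add _ _ _
    _ ≤ 2 ^ 10 * (16 * (3 * e + 10)) := Nat.mul_le_mul_left _ (two_pow_kk_le e)
    _ = _ := by ring

/-- **all numbers** -/
structure NumHyp (c K e y : ℕ) : Prop where
  n1 : y + 3 * (hh c e / ll c e) ≤ gth c K / (4 * CC c)
  n2 : y + 3 * (CC c ^ e / hh c e) ≤ gth c K / (4 * CC c)
  l : ll c e ≤ y
  b8 : 3 ≤ y
  th : CC c ^ (e - 5) / (e + 1) ≤ y
  t : 9 + c * (e + 1) ≤ y
  h : 9 + c * (e + 4) ≤ y

lemma c_le_CC (c : ℕ) : c ≤ CC c := by
  unfold CC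
  exact Nat.lt_two_pow_self.le

theorem numHyp {e : ℕ} (hc : 20 ≤ c) (hE : E0 c ≤ epo c K + 1) (h0 : E0 c ≤ e)
    (he : e ≤ epo c K + 1) : NumHyp c K e (gth c K / (4 * CC c) / 2) := by
  have hE1 := E0_ge (show 10 ≤ c by omega)
  have hC := Pool.Agent.E2S.CC_ge hc
  have hcC := c_le_CC c
  have hkey := key_pow hc (show 20 ≤ epo c K by omega)
  have hll0 : ll c e ≤ gth c K / (4 * CC c) / 2 := by
    have h1 : ll c e ≤ ll c (epo c K + 1) := by
      refine Nat.le_of_dvd ?_ ((small_grid (show 10 ≤ c by omega)).mono e _ h0 he)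
      exact (small_grid (show 10 ≤ c by omega)).pos _
    have h2 := Helper29.E2.ll_le_Gq (c := c) (E := epo c K) (e := epo c K + 1) (by omega) (by omega)
      (by omega) le_rfl
    refine h1.trans ?_
    rw [Nat.le_div_iff_mul_le (by norm_num), Nat.le_div_iff_mul_le (by omega)]
    unfold gth
    refine le_trans ?_ h2
    calc ll c (epo c K + 1) * 2 * (4 * CC c) = 8 * (CC c * ll c (epo c K + 1)) := by ring
      _ ≤ 512 * _ := Nat.mul_le_mul_right _ (by norm_num)
  have hhalf : ∀ q, q * (epo c K + 2) ≤ CC c ^ (epo c K - 4) → q ≤ gth c K / (4 * CC c) / 2 :=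
    fun q hq => le_half hc (by omega) hq
  have haux : CC c ^ (e - 5) / (e + 1) ≤ CC c ^ (epo c K - 4) / (epo c K + 2) := by
    have := aux_mono (C := CC c) (e := e) (e' := epo c K + 1) (by omega) (by omega) he
    have e1 : epo c K + 1 - 5 = epo c K - 4 := by omega
    rw [e1] at this
    exact this
  have hud := unit_div_le (c := c) (e := e) (by omega) hc
  have hdiv : hh c e / ll c e = 2 ^ 9 * CC c ^ 8 := by
    rw [hh_eq_ll (by omega) (by omega)]
    exact Nat.mul_div_cancel _ ((small_grid (show 10 ≤ c by omega)).pos _)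
  generalize epo c K = E at *
  have hp1 : CC c ^ (E - 12) ≤ CC c ^ (E - 4) := Nat.pow_le_pow_right (by omega) (by omega)
  have hp8 : CC c ^ (E - 4) = CC c ^ 8 * CC c ^ (E - 12) := by
    rw [← pow_add]
    congr 1
    omega
  have hpC : CC c * CC c ^ (E - 12) ≤ CC c ^ (E - 4) := by
    rw [hp8]
    exact Nat.mul_le_mul_right _ (Nat.le_self_pow (by norm_num) _)
  have hn1 : 3 * (hh c e / ll c e) ≤ gth c K / (4 * CC c) / 2 := by
    refine hhalf _ ?_
    rw [hdiv, hp8]
    calc 3 * (2 ^ 9 * CC c ^ 8) * (E + 2) = CC c ^ 8 * (3 * 2 ^ 9 * (E + 2)) := by ring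
      _ ≤ CC c ^ 8 * CC c ^ (E - 12) := by
          refine Nat.mul_le_mul_left _ (le_trans ?_ hkey)
          nlinarith
  have hn2 : 3 * (CC c ^ e / hh c e) ≤ gth c K / (4 * CC c) / 2 := by
    refine hhalf _ ?_
    refine le_trans ?_ (hkey.trans hp1)
    calc 3 * (CC c ^ e / hh c e) * (E + 2) ≤ 3 * (2 ^ 14 * (3 * e + 10)) * (E + 2) :=
          Nat.mul_le_mul_right _ (Nat.mul_le_mul_left _ hud)
      _ ≤ 3 * (2 ^ 14 * (3 * (E + 1) + 10)) * (E + 2) :=
          Nat.mul_le_mul_right _ (Nat.mul_le_mul_left _ (Nat.mul_le_mul_left _ (by omega)))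
      _ ≤ _ := by nlinarith
  exact
    { n1 := by omega
      n2 := by omega
      l := hll0
      b8 := by
        refine hhalf _ ?_
        refine le_trans ?_ (hkey.trans hp1)
        nlinarith
      th := by
        refine haux.trans (hhalf _ ?_)
        exact Nat.div_mul_le_self _ _
      t := by
        refine hhalf _ ?_
        refine le_trans ?_ ((Nat.mul_le_mul_left _ hkey).trans hpC)
        have h1 : c * (e + 1) ≤ CC c * (E + 2) := Nat.mul_le_mul hcC (by omega)
        calc (9 + c * (e + 1)) * (E + 2) ≤ (9 + CC c * (E + 2)) * (E + 2) :=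
              Nat.mul_le_mul_right _ (by omega)
          _ ≤ CC c * (E + 14) * (E + 14) := by
              refine Nat.mul_le_mul ?_ (by omega)
              calc 9 + CC c * (E + 2) ≤ CC c * 12 + CC c * (E + 2) := by omega
                _ = _ := by ring
          _ ≤ CC c * (2 ^ 20 * (E + 14) ^ 2) := by
              have : 0 < CC c * (E + 14) ^ 2 := by positivity
              nlinarith
      h := by
        refine hhalf _ ?_
        refine le_trans ?_ ((Nat.mul_le_mul_left _ hkey).trans hpC)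
        have h1 : c * (e + 4) ≤ CC c * (E + 5) := Nat.mul_le_mul hcC (by omega)
        calc (9 + c * (e + 4)) * (E + 2) ≤ (9 + CC c * (E + 5)) * (E + 2) :=
              Nat.mul_le_mul_right _ (by omega)
          _ ≤ CC c * (E + 14) * (E + 14) := by
              refine Nat.mul_le_mul ?_ (by omega)
              calc 9 + CC c * (E + 5) ≤ CC c * 9 + CC c * (E + 5) := by omega
                _ = _ := by ring
          _ ≤ CC c * (2 ^ 20 * (E + 14) ^ 2) := by
              have : 0 < CC c * (E + 14) ^ 2 := by positivity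
              nlinarith }

/-! ### the codes -/

/-- **the codes of helper83 are good for the top zones** -/
theorem topCodes_mk2 {Sd TK : ℕ → Finset ℕ} {e y : ℕ} (hc : 20 ≤ c) (hS : SdOK Sd)
    (he : E0 c ≤ e) (hy : NumHyp c K e y) :
    TopCodes c (mk2 c Sd TK) e (2 ^ y) := by
  have hE := E0_ge (show 10 ≤ c by omega)
  have hC := Pool.Agent.E2S.CC_ge hc
  have h1 := mk2_loc1 (TK := TK) hc hS (show 40 ≤ e by omega)
  have h2 := mk2_loc2 (TK := TK) hc hS (show 40 ≤ e by omega)
  have hlpos : 0 < ll c e := (small_grid (show 10 ≤ c by omega)).pos _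
  have hhpos : 0 < hh c e := (mid_grid (show 10 ≤ c by omega)).pos _
  have hdiv : hh c e / ll c e = n1 c := by
    rw [hh_eq_ll (by omega) (by omega)]
    exact Nat.mul_div_cancel _ hlpos
  have hhl : ll c e * n1 c = hh c e := by
    rw [hh_eq_ll (by omega) (by omega)]
    exact mul_comm _ _
  have hl2 : 2 ∣ ll c e := Helper83.E2.ll_even hc (by omega)
  have hl8 : 8 ≤ ll c e := by
    have := Helper83.E2.ll_ge hc (show 40 ≤ e by omega)
    omega
  have hh2 : 2 ∣ hh c e := by rw [← hhl]; exact Dvd.dvd.mul_right hl2 _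
  have hhW : hh c e ∣ CC c ^ e := (mid_grid (show 10 ≤ c by omega)).dvd e he
  have hhle := hh_le_Wd (show 10 ≤ c by omega) he
  have hW : CC c ^ e / hh c e * hh c e = CC c ^ e := Nat.div_mul_cancel hhW
  have h8 : 8 ≤ 2 ^ y := by
    calc 8 = 2 ^ 3 := by norm_num
      _ ≤ _ := Nat.pow_le_pow_right (by norm_num) hy.b8
  have h400 : 400 ≤ 2 ^ 9 := by norm_num
  have hBT : BT (CC c) e ≤ 2 ^ y := by
    unfold BT
    calc 400 * CC c ^ (e + 1) ≤ 2 ^ 9 * CC c ^ (e + 1) := Nat.mul_le_mul_right _ h400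
      _ = 2 ^ (9 + c * (e + 1)) := by unfold CC; rw [← pow_mul, ← pow_add]
      _ ≤ _ := Nat.pow_le_pow_right (by norm_num) hy.t
  have hBTh : BTh (CC c) e ≤ 2 ^ y := Nat.pow_le_pow_right (by norm_num) hy.th
  have hB1 : B1 (ll c e * n1 c) ≤ 2 ^ y := by
    rw [hhl]
    unfold B1
    have : hh c e ≤ 2 ^ (c * (e + 4)) := by
      unfold hh
      exact Nat.pow_le_pow_right (by norm_num) (by omega)
    calc 400 * hh c e ≤ 2 ^ 9 * 2 ^ (c * (e + 4)) := Nat.mul_le_mul h400 this
      _ = 2 ^ (9 + c * (e + 4)) := by rw [← pow_add]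
      _ ≤ _ := Nat.pow_le_pow_right (by norm_num) hy.h
  have hB11 : 1 ≤ B1 (ll c e * n1 c) := by
    rw [hhl]
    unfold B1
    omega
  exact
    { W := rfl
      H := rfl
      L := rfl
      R := by
        have hn := h2.toLocGood.nearT
        have h20 : 2 ^ 20 ≤ CC c ^ e := hC.trans (Nat.le_self_pow (by omega) _)
        exact mkT_RBase (dvd_pow (two_dvd_CC hc) (by omega)) h20 hn
      m1 := by
        rw [hdiv]
        refine MergeCodes.ofLoc1 (h := ?_) ?_ hl2 (hS.lt _ hl2 hl8)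
          (hS.card _ hl2 hl8) (hS.mult _ hl2 hl8) h8
          hB1 (Nat.pow_le_pow_right (by norm_num) hy.l) hB11
        · rw [cat_eq_comp, ← hdiv]
          rw [hdiv]
          have := h1
          unfold C1s at this
          rw [hdiv] at this
          exact this
        · unfold n1
          have : 1 ≤ CC c ^ 8 := Nat.one_le_pow _ _ (CC_pos c)
          omega
      m2 := by
        refine MergeCodes.ofLoc2 (C := CC c) (e := e) (h := ?_) hW ?_ hh2 ?_ ?_ ?_ h8 hBT hBTh
          (one_le_BT e)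
        · rw [cat_eq_comp]
          exact h2
        · rw [Nat.le_div_iff_mul_le hhpos]
          omega
        · have := h1.Th_lt
          rw [hhl] at this
          exact this
        · have := h1.Th_card
          rw [hhl] at this
          exact this
        · have := h1.ThTh
          rw [hhl] at this
          intro s
          exact (this s).trans (by norm_num) }

/-- **`TopHyp` for the codes of phase 2** -/
theorem topHyp_mk2 {K' : ℕ} {Sd TK : ℕ → Finset ℕ} (hc : 20 ≤ c) (hS : SdOK Sd)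
    (hK' : E0 c ≤ epo c K')
    (hK : K' ≤ K) : TopHyp c (mk2 c Sd TK) K K' where
  big := hK'
  codes := by
    intro e h1 h2
    have hE := hK'.trans (Helper29.E2.epo_mono hK)
    have hn := numHyp (K := K) hc (by omega) h1 h2
    refine ⟨_, topCodes_mk2 hc hS h1 hn, ?_, ?_⟩
    · have h8 : 8 ^ (hh c e / ll c e) = 2 ^ (3 * (hh c e / ll c e)) := by
        rw [pow_mul]
        norm_num
      rw [h8, ← pow_add]
      exact Nat.pow_le_pow_right (by norm_num) hn.n1
    · have h8 : 8 ^ (CC c ^ e / hh c e) = 2 ^ (3 * (CC c ^ e / hh c e)) := by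
        rw [pow_mul]
        norm_num
      rw [h8, ← pow_add]
      exact Nat.pow_le_pow_right (by norm_num) hn.n2

end Pool.Agent.Helper86.E2
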